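import Pool.Agent.Lib.MP_b55e0a_lc.Basic

/-! Area bound for pairwise disjoint disks which meet a given disk. -/

set_option autoImplicit false

namespace BDD

/-- a disk of radius `t` inside `A` that meets `H` -/
private theorem exists_centre (A H : Dk) {t : ℝ} (hr : t ≤ A.2) (hH : 0 ≤ H.2) (ht : 0 < t)
    (hm : Mt A H) : ∃ c : E2, dist c A.1 + t ≤ A.2 ∧ dist c H.1 ≤ H.2 + t := by
  unfold Mt at hm
  by_cases h : dist A.1 H.1 ≤ A.2 - t
  · refine ⟨H.1, ?_, ?_⟩
    · rw [dist_comm]; linarith
    · rw [dist_self]; linarith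
  · push Not at h
    have hpos : 0 < dist A.1 H.1 := by linarith
    refine ⟨AffineMap.lineMap A.1 H.1 ((A.2 - t) / dist A.1 H.1), ?_, ?_⟩
    · rw [dist_lineMap_left, Real.norm_eq_abs, abs_of_nonneg (div_nonneg (by linarith) hpos.le),
        div_mul_cancel₀ _ hpos.ne']
      linarith
    · rw [dist_lineMap_right, Real.norm_eq_abs, abs_of_nonneg, sub_mul, one_mul,
        div_mul_cancel₀ _ hpos.ne']
      · linarith
      · rw [sub_nonneg, div_le_one hpos]
        exact h.le

/-- Each `d i` contains a closed disk of radius `t` which meets the disk `H` (choose the centre on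
the segment from the centre of `d i` to a common point), hence lies in the disk with centre `H.1` and
radius `H.2 + 2t`; compare areas (`MeasureTheory.Measure.addHaar_closedBall`). -/
theorem area {ι : Type} [Fintype ι] (d : ι → Dk) (H : Dk) {t : ℝ} (ht : 0 < t)
    (hr : ∀ i, t ≤ (d i).2) (hd : ∀ i j, i ≠ j → ¬ Mt (d i) (d j)) (hH : 0 ≤ H.2)
    (hm : ∀ i, Mt (d i) H) : (Fintype.card ι : ℝ) * t ^ 2 ≤ (H.2 + 2 * t) ^ 2 := by
  classical
  choose c hc1 hc2 using fun i => exists_centre (d i) H (hr i) hH ht (hm i)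
  have hdis : Pairwise (Function.onFun Disjoint fun i => Metric.closedBall (c i) t) := by
    intro i j hij
    apply Metric.closedBall_disjoint_closedBall
    have h1 := hd i j hij
    unfold Mt at h1
    push Not at h1
    have h2 := dist_triangle (d i).1 (c i) (d j).1
    have h3 := dist_triangle (c i) (c j) (d j).1
    have h4 := hc1 i
    have h5 := hc1 j
    rw [dist_comm (c i) (d i).1] at h4
    linarith
  have hsub : (⋃ i ∈ (Finset.univ : Finset ι), Metric.closedBall (c i) t)
      ⊆ Metric.closedBall H.1 (H.2 + 2 * t) := by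
    intro x hx
    simp only [Finset.mem_univ, Set.iUnion_true, Set.mem_iUnion] at hx
    obtain ⟨i, hi⟩ := hx
    rw [Metric.mem_closedBall] at hi ⊢
    have := dist_triangle x (c i) H.1
    have := hc2 i
    linarith
  have hmeas := MeasureTheory.measure_mono (μ := MeasureTheory.volume) hsub
  rw [MeasureTheory.measure_biUnion_finset (fun i _ j _ hij => hdis hij)
    (fun i _ => Metric.isClosed_closedBall.measurableSet)] at hmeas
  have hfin : Module.finrank ℝ E2 = 2 := by simp [E2]
  have hball : ∀ (x : E2) {r : ℝ}, 0 ≤ r → MeasureTheory.volume (Metric.closedBall x r)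
      = ENNReal.ofReal (r ^ 2) * MeasureTheory.volume (Metric.ball (0 : E2) 1) := by
    intro x r hr
    rw [MeasureTheory.Measure.addHaar_closedBall _ _ hr, hfin]
  rw [hball _ (by linarith)] at hmeas
  simp only [hball _ ht.le] at hmeas
  rw [Finset.sum_const, Finset.card_univ, nsmul_eq_mul, ← mul_assoc] at hmeas
  have hv0 : MeasureTheory.volume (Metric.ball (0 : E2) 1) ≠ 0 :=
    (Metric.measure_ball_pos _ _ one_pos).ne'
  have hv1 : MeasureTheory.volume (Metric.ball (0 : E2) 1) ≠ ⊤ :=
    MeasureTheory.measure_ball_lt_top.ne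
  rw [ENNReal.mul_le_mul_iff_left hv0 hv1] at hmeas
  rw [← ENNReal.ofReal_natCast, ← ENNReal.ofReal_mul (by positivity),
    ENNReal.ofReal_le_ofReal_iff (by positivity)] at hmeas
  exact hmeas

end BDD
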