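import Mathlib

/-!
# MP_b55e0a_lc: disk graphs of bounded degree need doubly exponential radius ratios

Basic notions.  A disk is a pair (centre, radius); `Mt A B`: the closed disks meet.
-/

set_option autoImplicit false

namespace BDD

/-- the plane -/
abbrev E2 := EuclideanSpace ℝ (Fin 2)

/-- a disk: centre and radius -/
abbrev Dk := E2 × ℝ

/-- the closed disks `A`, `B` meet (for positive radii) -/
def Mt (A B : Dk) : Prop := dist A.1 B.1 ≤ A.2 + B.2

theorem mt_comm {A B : Dk} : Mt A B ↔ Mt B A := by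
  unfold Mt
  rw [dist_comm, add_comm]

theorem mt_iff_nonempty {A B : Dk} (hA : 0 < A.2) (hB : 0 < B.2) :
    Mt A B ↔ (Metric.closedBall A.1 A.2 ∩ Metric.closedBall B.1 B.2).Nonempty := by
  rw [← Set.not_disjoint_iff_nonempty_inter, disjoint_closedBall_closedBall_iff hA.le hB.le,
    not_lt]
  rfl

/-- if `A` lies in the disk with centre `c` and radius `r₀`, which is disjoint from `X`, then `X`
and `A` do not meet -/
theorem not_mt_of_sub {X A : Dk} {c : E2} {r₀ : ℝ} (hA : dist A.1 c + A.2 ≤ r₀)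
    (hX : X.2 + r₀ < dist X.1 c) : ¬ Mt X A := by
  unfold Mt
  have := dist_triangle X.1 A.1 c
  intro h
  linarith

/-- One level of the construction: the squaring gadget around the disk `P`.
`q` and `Y` meet `P`; `q` bridges the pair `E`, `Y` does not meet it; `q` does not meet the pair `G`,
sixteen pairwise disjoint disks `z i` bridge it, and all `z i` meet `Y`. -/
structure Gad (P q Y : Dk) (E G : Bool → Dk) (z : Fin 16 → Dk) : Prop where
  EE : ¬ Mt (E true) (E false)
  GG : ¬ Mt (G true) (G false)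
  qE : ∀ i, Mt q (E i)
  qG : ∀ i, ¬ Mt q (G i)
  YE : ∀ i, ¬ Mt Y (E i)
  Yz : ∀ i, Mt Y (z i)
  zG : ∀ i j, Mt (z i) (G j)
  zz : ∀ i j, i ≠ j → ¬ Mt (z i) (z j)
  PE : ∀ i, Mt P (E i)
  PG : ∀ i, Mt P (G i)
  Pq : Mt P q
  PY : Mt P Y

end BDD
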