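import Pool.Agent.Lib.MP_b55e0a_lc.Squaring

/-! Chains of gadgets: doubly exponential decrease. -/

set_option autoImplicit false

namespace BDD

/-- a chain of `L` gadgets; the gadget of level `m` sits at `P = q m` and produces `q (m+1)`; the
large disks of level `m+3` bridge the pair `G m`; the large disks of the levels `0, 1, 2` are very
large compared to `q 0`. -/
structure Chain (L : ℕ) (q Y : ℕ → Dk) (E G : ℕ → Bool → Dk) (z : ℕ → Fin 16 → Dk) : Prop where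
  pq : ∀ m, m ≤ L → 0 < (q m).2
  pY : ∀ m, m < L → 0 < (Y m).2
  pE : ∀ m, m < L → ∀ i, 0 < (E m i).2
  pG : ∀ m, m < L → ∀ i, 0 < (G m i).2
  pz : ∀ m, m < L → ∀ i, 0 < (z m i).2
  gad : ∀ m, m < L → Gad (q m) (q (m + 1)) (Y m) (E m) (G m) (z m)
  far : ∀ m, m + 3 < L → ∀ i j, Mt (E (m + 3) i) (G m j) ∧ Mt (G (m + 3) i) (G m j)
  base : ∀ m, m < 3 → m < L → ∀ i,
    10 ^ 10 * (q 0).2 ≤ (E m i).2 ∧ 10 ^ 10 * (q 0).2 ≤ (G m i).2

variable {L : ℕ} {q Y : ℕ → Dk} {E G : ℕ → Bool → Dk} {z : ℕ → Fin 16 → Dk}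

/-- the lower bound for the large disks of level `n + 3` -/
private theorem chain_low (h : Chain L q Y E G z) {n : ℕ} (hn : n + 3 < L)
    (s0 : (q (n + 1)).2 ≤ 2 / 10 ^ 6 * (q n).2)
    (s1 : (q (n + 2)).2 ≤ 2 / 10 ^ 6 * (q (n + 1)).2)
    (s2 : (q (n + 3)).2 ≤ 2 / 10 ^ 6 * (q (n + 2)).2)
    (g0 : ∀ i, 100 * (q n).2 ≤ (G n i).2) {H : Dk} (hH : 0 < H.2)
    (hHq : Mt (q (n + 3)) H) (hHG : ∀ j, Mt H (G n j)) : (q (n + 1)).2 / 4 ≤ H.2 := by
  have p0 := h.pq n (by omega)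
  have p1 := h.pq (n + 1) (by omega)
  have p2 := h.pq (n + 2) (by omega)
  have p3 := h.pq (n + 3) (by omega)
  have gd := h.gad n (by omega)
  have gd1 := h.gad (n + 1) (by omega)
  have gd2 := h.gad (n + 2) (by omega)
  refine lower (G₁ := G n true) (G₂ := G n false) (Λ := 20 * (q (n + 1)).2) p1 hH le_rfl ?_ ?_
    gd.GG (hHG _) (hHG _) (gd.qG _) (gd.qG _) ?_
  · have := g0 true
    linarith
  · have := g0 false
    linarith
  · have d1 : dist (q (n + 3)).1 H.1 ≤ (q (n + 3)).2 + H.2 := hHq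
    have d2 : dist (q (n + 2)).1 (q (n + 3)).1 ≤ (q (n + 2)).2 + (q (n + 3)).2 := gd2.Pq
    have d3 : dist (q (n + 1)).1 (q (n + 2)).1 ≤ (q (n + 1)).2 + (q (n + 2)).2 := gd1.Pq
    have t1 := dist_triangle H.1 (q (n + 3)).1 (q (n + 1)).1
    have t2 := dist_triangle (q (n + 3)).1 (q (n + 2)).1 (q (n + 1)).1
    rw [dist_comm H.1 (q (n + 3)).1] at t1
    rw [dist_comm (q (n + 3)).1 (q (n + 2)).1, dist_comm (q (n + 2)).1 (q (n + 1)).1] at t2
    linarith

private theorem chain_sq (h : Chain L q Y E G z) {n : ℕ} (hn : n + 3 < L)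
    (s0 : (q (n + 1)).2 ≤ 2 / 10 ^ 6 * (q n).2)
    (s1 : (q (n + 2)).2 ≤ 2 / 10 ^ 6 * (q (n + 1)).2)
    (s2 : (q (n + 3)).2 ≤ 2 / 10 ^ 6 * (q (n + 2)).2)
    (g0 : ∀ i, 100 * (q n).2 ≤ (G n i).2) :
    (q (n + 4)).2 * (q (n + 1)).2 ≤ 60000 * (q (n + 3)).2 ^ 2 ∧
      (∀ i, (q (n + 1)).2 / 4 ≤ (E (n + 3) i).2 ∧ (q (n + 1)).2 / 4 ≤ (G (n + 3) i).2) := by
  have p1 := h.pq (n + 1) (by omega)
  have p3 := h.pq (n + 3) (by omega)
  have p4 := h.pq (n + 3 + 1) (by omega)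
  have gd3 := h.gad (n + 3) (by omega)
  have hE : ∀ i, (q (n + 1)).2 / 4 ≤ (E (n + 3) i).2 := fun i =>
    chain_low h hn s0 s1 s2 g0 (h.pE _ (by omega) i) (gd3.PE i) (fun j => (h.far n hn i j).1)
  have hG : ∀ i, (q (n + 1)).2 / 4 ≤ (G (n + 3) i).2 := fun i =>
    chain_low h hn s0 s1 s2 g0 (h.pG _ (by omega) i) (gd3.PG i) (fun j => (h.far n hn i j).2)
  refine ⟨?_, fun i => ⟨hE i, hG i⟩⟩
  have hs := squaring gd3 p3 p4 (h.pY _ (by omega)) (h.pz _ (by omega)) hE hG (by linarith)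
  have e : 15000 * ((q (n + 3)).2 ^ 2 / ((q (n + 1)).2 / 4)) =
      60000 * (q (n + 3)).2 ^ 2 / (q (n + 1)).2 := by
    field_simp
    norm_num
  rw [e, le_div_iff₀ p1] at hs
  exact hs

/-- Strong induction on `m` (`m < L`).  Statement for `m`: radius of `q` drops by `2/10^6` and the
large disks of level `m` have radius `≥ 100 r(q m)`.
`m < 3`: `Λ = 10^10 r(q 0)`, `r(q m) ≤ r(q 0)` by induction, `squaring` gives
`r(q (m+1)) ≤ 15000 r(q m)²/(10^10 r(q 0)) ≤ 2/10^6 r(q m)`.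
`m = n+3`: `lower` with `G₁ = G n true`, `G₂ = G n false`, `q := q (n+1)`, `H = E m i` or `G m i`
(`|H - q (n+1)| ≤ r(H) + 2r(q (n+3)) + 2r(q (n+2)) + r(q (n+1))`, `H` meets `q (n+3)`, consecutive
`q`'s meet) gives `r(H) ≥ r(q (n+1))/4 ≥ 10^11/4 · r(q (n+3))`; then `squaring` with `Λ = r(q (n+1))/4`. -/
theorem Chain.step (h : Chain L q Y E G z) : ∀ m, m < L →
    (q (m + 1)).2 ≤ 2 / 10 ^ 6 * (q m).2 ∧
    (∀ i, 100 * (q m).2 ≤ (E m i).2 ∧ 100 * (q m).2 ≤ (G m i).2) := by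
  intro m
  induction m using Nat.strong_induction_on with
  | _ m ih =>
    intro hm
    have pm := h.pq m hm.le
    have pm1 := h.pq (m + 1) hm
    have p0 := h.pq 0 (by omega)
    by_cases h3 : m < 3
    · have hle : (q m).2 ≤ (q 0).2 := by
        have e1 : 1 ≤ m → (q 1).2 ≤ 2 / 10 ^ 6 * (q 0).2 := fun hm1 =>
          (ih 0 (by omega) (by omega)).1
        have e2 : 2 ≤ m → (q 2).2 ≤ 2 / 10 ^ 6 * (q 1).2 := fun hm1 =>
          (ih 1 (by omega) (by omega)).1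
        interval_cases m
        · exact le_rfl
        · have := e1 le_rfl
          linarith
        · have a1 := e1 (by norm_num)
          have a2 := e2 le_rfl
          linarith
      have hb := h.base m h3 hm
      have hs := squaring (h.gad m hm) pm pm1 (h.pY _ hm) (h.pz _ hm)
        (Λ := 10 ^ 10 * (q 0).2) (fun i => (hb i).1) (fun i => (hb i).2) (by linarith)
      refine ⟨?_, fun i => ⟨?_, ?_⟩⟩
      · refine hs.trans ?_
        rw [← mul_div_assoc, div_le_iff₀ (by positivity)]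
        nlinarith
      · have := (hb i).1
        linarith
      · have := (hb i).2
        linarith
    · obtain ⟨n, rfl⟩ : ∃ n, m = n + 3 := ⟨m - 3, by omega⟩
      have i0 := ih n (by omega) (by omega)
      have i1 := ih (n + 1) (by omega) (by omega)
      have i2 := ih (n + 2) (by omega) (by omega)
      obtain ⟨c1, c2⟩ := chain_sq h hm i0.1 i1.1 i2.1 (fun i => (i0.2 i).2)
      have p1 := h.pq (n + 1) (by omega)
      have p2 := h.pq (n + 2) (by omega)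
      have j1 : (q (n + 2)).2 ≤ 2 / 10 ^ 6 * (q (n + 1)).2 := i1.1
      have j2 : (q (n + 3)).2 ≤ 2 / 10 ^ 6 * (q (n + 2)).2 := i2.1
      have j3 : 10 ^ 11 * (q (n + 3)).2 ≤ (q (n + 1)).2 := by linarith
      refine ⟨?_, fun i => ⟨?_, ?_⟩⟩
      · show (q (n + 4)).2 ≤ 2 / 10 ^ 6 * (q (n + 3)).2
        have k1 : (q (n + 4)).2 * (10 ^ 11 * (q (n + 3)).2) ≤ (q (n + 4)).2 * (q (n + 1)).2 :=
          mul_le_mul_of_nonneg_left j3 pm1.le
        have k2 : ((q (n + 4)).2 * 10 ^ 11) * (q (n + 3)).2 ≤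
            (60000 * (q (n + 3)).2) * (q (n + 3)).2 := by
          nlinarith
        have k3 := le_of_mul_le_mul_right k2 pm
        linarith
      · have := (c2 i).1
        linarith
      · have := (c2 i).2
        linarith

/-- the recursion -/
theorem Chain.rec_le (h : Chain L q Y E G z) : ∀ m, m + 3 < L →
    (q (m + 4)).2 * (q (m + 1)).2 ≤ 60000 * (q (m + 3)).2 ^ 2 := by
  intro m hm
  have i0 := h.step m (by omega)
  have i1 := h.step (m + 1) (by omega)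
  have i2 := h.step (m + 2) (by omega)
  exact (chain_sq h hm i0.1 i1.1 i2.1 (fun i => (i0.2 i).2)).1

/-- Put `x m = r(q m)/r(q (m+1)) ≥ 5·10^5` and `y m = x m/60000 ≥ 8`.  `Chain.rec_le` says
`y (m+3) ≥ y (m+1) y (m+2)`.  So `y (m+3) ≥ y (m+2)` and `y (m+4) ≥ y (m+2)²`;
`y (2+2N) ≥ 2^(2^N)`. -/
theorem Chain.ratio (h : Chain L q Y E G z) (N : ℕ) (hL : 2 * N + 3 ≤ L) :
    2 ^ (2 ^ N) * (q (2 * N + 3)).2 ≤ (q (2 * N + 2)).2 := by
  obtain ⟨y, hy⟩ : ∃ y : ℕ → ℝ, y = fun m => (q m).2 / (q (m + 1)).2 / 60000 := ⟨_, rfl⟩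
  have hy8 : ∀ m, m < L → 8 ≤ y m := by
    intro m hm
    have p1 := h.pq (m + 1) hm
    have hs := (h.step m hm).1
    rw [hy]
    simp only
    rw [le_div_iff₀ (by norm_num), le_div_iff₀ p1]
    linarith
  have hrec : ∀ m, m + 3 < L → y (m + 1) * y (m + 2) ≤ y (m + 3) := by
    intro m hm
    have p1 := h.pq (m + 1) (by omega)
    have p2 := h.pq (m + 2) (by omega)
    have p3 := h.pq (m + 3) (by omega)
    have p4 := h.pq (m + 4) (by omega)
    have hr := h.rec_le m hm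
    rw [hy]
    show (q (m + 1)).2 / (q (m + 2)).2 / 60000 * ((q (m + 2)).2 / (q (m + 3)).2 / 60000) ≤
      (q (m + 3)).2 / (q (m + 4)).2 / 60000
    have e : (q (m + 1)).2 / (q (m + 2)).2 / 60000 * ((q (m + 2)).2 / (q (m + 3)).2 / 60000) =
        (q (m + 1)).2 / (60000 * (q (m + 3)).2) / 60000 := by
      field_simp
    rw [e]
    apply div_le_div_of_nonneg_right _ (by norm_num)
    rw [div_le_div_iff₀ (by positivity) p4]
    nlinarith
  have hmain : ∀ N, 2 * N + 3 ≤ L → (2 : ℝ) ^ (2 ^ N) ≤ y (2 * N + 2) := by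
    intro N
    induction N with
    | zero =>
      intro hN
      have := hy8 2 (by omega)
      simp only [pow_zero, pow_one, mul_zero, zero_add]
      linarith
    | succ N ih =>
      intro hN
      have i1 := ih (by omega)
      have r1 := hrec (2 * N) (by omega)
      have r2 := hrec (2 * N + 1) (by omega)
      have a1 := hy8 (2 * N + 1) (by omega)
      have a2 : 0 < y (2 * N + 2) := lt_of_lt_of_le (by positivity) i1
      have b1 : y (2 * N + 2) ≤ y (2 * N + 3) := by nlinarith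
      have e1 : 2 * (N + 1) + 2 = 2 * N + 1 + 3 := by ring
      rw [e1]
      calc (2 : ℝ) ^ 2 ^ (N + 1) = 2 ^ (2 ^ N) * 2 ^ (2 ^ N) := by
            rw [← pow_add, pow_succ]
            congr 1
            ring
        _ ≤ y (2 * N + 2) * y (2 * N + 3) := by
            apply mul_le_mul i1 (i1.trans b1) (by positivity) a2.le
        _ ≤ y (2 * N + 1 + 3) := r2
  have hf := hmain N hL
  have p1 := h.pq (2 * N + 3) hL
  rw [hy] at hf
  have hf' : (2 : ℝ) ^ 2 ^ N ≤ (q (2 * N + 2)).2 / (q (2 * N + 3)).2 / 60000 := hf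
  rw [le_div_iff₀ (by norm_num), le_div_iff₀ p1] at hf'
  have hpos : 0 ≤ (2 : ℝ) ^ 2 ^ N * (q (2 * N + 3)).2 := by positivity
  nlinarith

end BDD
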