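import Mathlib

/-! The sequence of radii. -/

set_option autoImplicit false

namespace BDD

noncomputable section

/-- radii of the disks `q m`; `ρ (m+1) = ρ m ²/(200 s m)` with `s m = B` for `m < 3` and
`s (m+3) = 10 ρ (m+1)` -/
def rho (B : ℝ) : ℕ → ℝ
  | 0 => 1
  | 1 => 1 / (200 * B)
  | 2 => (1 / (200 * B)) ^ 2 / (200 * B)
  | 3 => ((1 / (200 * B)) ^ 2 / (200 * B)) ^ 2 / (200 * B)
  | (m + 4) => rho B (m + 3) ^ 2 / (2000 * rho B (m + 1))

/-- radius of the disks `E` of level `m` -/
def ss (B : ℝ) (m : ℕ) : ℝ := rho B m ^ 2 / (200 * rho B (m + 1))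

def sig (B : ℝ) (m : ℕ) : ℝ := ∑ i ∈ Finset.range m, rho B i

variable {B : ℝ}

private theorem rho_rec (B : ℝ) (m : ℕ) :
    rho B (m + 4) = rho B (m + 3) ^ 2 / (2000 * rho B (m + 1)) := by
  simp only [rho]

private theorem rho_zero (B : ℝ) : rho B 0 = 1 := by simp only [rho]

private theorem rho_one (B : ℝ) : rho B 1 = 1 / (200 * B) := by simp only [rho]

private theorem rho_two (B : ℝ) : rho B 2 = rho B 1 ^ 2 / (200 * B) := by simp only [rho]

private theorem rho_three (B : ℝ) : rho B 3 = rho B 2 ^ 2 / (200 * B) := by simp only [rho]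

theorem rho_pos (hB : 0 < B) : ∀ m, 0 < rho B m := by
  intro m
  induction m using Nat.strong_induction_on with
  | _ m ih =>
    match m, ih with
    | 0, _ => rw [rho_zero]; norm_num
    | 1, _ => rw [rho_one]; positivity
    | 2, ih =>
      have h1 := ih 1 (by norm_num)
      rw [rho_two]; positivity
    | 3, ih =>
      have h1 := ih 2 (by norm_num)
      rw [rho_three]; positivity
    | (n + 4), ih =>
      have h1 := ih (n + 3) (by omega)
      have h2 := ih (n + 1) (by omega)
      rw [rho_rec]; positivity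

theorem ss_pos (hB : 0 < B) (m : ℕ) : 0 < ss B m := by
  unfold ss
  have h1 := rho_pos hB m
  have h2 := rho_pos hB (m + 1)
  positivity

theorem ss_base (hB : 0 < B) {m : ℕ} (hm : m < 3) : ss B m = B := by
  have h1 := rho_pos hB 1
  have h2 := rho_pos hB 2
  unfold ss
  match m, hm with
  | 0, _ =>
    rw [rho_zero, rho_one]
    field_simp
  | 1, _ =>
    rw [rho_two]
    field_simp
  | 2, _ =>
    rw [rho_three]
    field_simp

theorem ss_step (hB : 0 < B) (m : ℕ) : ss B (m + 3) = 10 * rho B (m + 1) := by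
  have h1 := rho_pos hB (m + 1)
  have h2 := rho_pos hB (m + 3)
  unfold ss
  rw [rho_rec]
  field_simp
  norm_num

/-- `200 s m ρ (m+1) = ρ m ²` -/
theorem ss_mul (hB : 0 < B) (m : ℕ) : 200 * ss B m * rho B (m + 1) = rho B m ^ 2 := by
  have h1 := rho_pos hB (m + 1)
  unfold ss
  field_simp

/-- fast decrease -/
theorem rho_succ (hB : 10 ^ 6 ≤ B) : ∀ m, 10 ^ 6 * rho B (m + 1) ≤ rho B m := by
  have hB0 : 0 < B := by linarith
  intro m
  induction m using Nat.strong_induction_on with
  | _ m ih =>
    match m, ih with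
    | 0, _ =>
      rw [rho_zero, rho_one, mul_one_div, div_le_one (by positivity)]
      linarith
    | 1, ih =>
      have h0 := ih 0 (by norm_num)
      have h1 := rho_pos hB0 1
      rw [rho_zero] at h0
      rw [rho_two, mul_div_assoc', div_le_iff₀ (by positivity)]
      have h2 : rho B 1 ≤ 1 := by linarith
      nlinarith
    | 2, ih =>
      have h0 := ih 0 (by norm_num)
      have h0' := ih 1 (by norm_num)
      have h1 := rho_pos hB0 1
      have h1' := rho_pos hB0 2
      rw [rho_zero] at h0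
      rw [rho_three, mul_div_assoc', div_le_iff₀ (by positivity)]
      have h2 : rho B 2 ≤ 1 := by linarith
      nlinarith
    | (n + 3), ih =>
      have a1 := ih (n + 1) (by omega)
      have a2 := ih (n + 2) (by omega)
      have p1 := rho_pos hB0 (n + 1)
      have p2 := rho_pos hB0 (n + 2)
      have p3 := rho_pos hB0 (n + 3)
      rw [rho_rec, mul_div_assoc', div_le_iff₀ (by positivity)]
      have h2 : 10 ^ 12 * rho B (n + 3) ≤ rho B (n + 1) := by
        have e1 : rho B (n + 1 + 1) = rho B (n + 2) := rfl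
        have e2 : rho B (n + 2 + 1) = rho B (n + 3) := rfl
        rw [e1] at a1
        rw [e2] at a2
        linarith
      nlinarith

theorem rho_anti (hB : 10 ^ 6 ≤ B) {m n : ℕ} (h : m ≤ n) : rho B n ≤ rho B m := by
  have hB0 : 0 < B := by linarith
  induction n, h using Nat.le_induction with
  | base => exact le_rfl
  | succ n _ ih =>
    have h1 := rho_succ hB n
    have h2 := rho_pos hB0 (n + 1)
    have h3 := rho_pos hB0 n
    refine le_trans ?_ ih
    nlinarith

theorem ss_ge (hB : 10 ^ 6 ≤ B) (m : ℕ) : 5000 * rho B m ≤ ss B m := by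
  have hB0 : 0 < B := by linarith
  rcases Nat.lt_or_ge m 3 with hm | hm
  · rw [ss_base hB0 hm]
    have h1 := rho_anti hB (Nat.zero_le m)
    rw [rho_zero] at h1
    linarith
  · obtain ⟨n, rfl⟩ := Nat.exists_eq_add_of_le hm
    have e : 3 + n = n + 3 := by omega
    rw [e, ss_step hB0]
    have a1 := rho_succ hB (n + 1)
    have a2 := rho_succ hB (n + 2)
    have e1 : rho B (n + 1 + 1) = rho B (n + 2) := rfl
    have e2 : rho B (n + 2 + 1) = rho B (n + 3) := rfl
    rw [e1] at a1
    rw [e2] at a2
    have p3 := rho_pos hB0 (n + 3)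
    linarith

theorem sig_zero : sig B 0 = 0 := by
  simp [sig]

theorem sig_succ (m : ℕ) : sig B (m + 1) = sig B m + rho B m := by
  simp [sig, Finset.sum_range_succ]

/-- bounds for the displacement between the levels `m < n` -/
theorem sig_sub_le (hB : 10 ^ 6 ≤ B) {m n : ℕ} (h : m < n) :
    rho B m ≤ sig B n - sig B m ∧ sig B n - sig B m ≤ 101 / 100 * rho B m := by
  have hB0 : 0 < B := by linarith
  have key : ∀ n, m + 1 ≤ n → rho B m ≤ sig B n - sig B m ∧
      sig B n - sig B m + 2 * rho B n ≤ 101 / 100 * rho B m := by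
    intro n hn
    induction n, hn using Nat.le_induction with
    | base =>
      have h1 := rho_succ hB m
      have h2 := rho_pos hB0 (m + 1)
      rw [sig_succ]
      constructor <;> linarith
    | succ n _ ih =>
      obtain ⟨i1, i2⟩ := ih
      have h1 := rho_succ hB n
      have h2 := rho_pos hB0 (n + 1)
      have h3 := rho_pos hB0 n
      rw [sig_succ]
      constructor <;> linarith
  obtain ⟨k1, k2⟩ := key n h
  have h3 := rho_pos hB0 n
  exact ⟨k1, by linarith⟩

theorem le_sig_sub (hB : 10 ^ 6 ≤ B) {m n : ℕ} (h : m + 1 < n) :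
    rho B m + rho B (m + 1) ≤ sig B n - sig B m := by
  have h1 := (sig_sub_le hB h).1
  rw [sig_succ] at h1
  linarith

/-- `1 ≤ σ m ≤ 1.01` for `m ≥ 1` -/
theorem sig_bounds (hB : 10 ^ 6 ≤ B) {m : ℕ} (h : 1 ≤ m) :
    1 ≤ sig B m ∧ sig B m ≤ 101 / 100 := by
  have h1 := sig_sub_le hB (Nat.lt_of_lt_of_le Nat.zero_lt_one h)
  rw [rho_zero, sig_zero, sub_zero, mul_one] at h1
  exact h1

end

end BDD
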