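import Pool.Agent.Lib.MP_b55e0a_lc.Basic
import Pool.Agent.Lib.MP_b55e0a_lc.Seq

/-! The explicit disks. -/

set_option autoImplicit false

namespace BDD

noncomputable section

/-- types of disks of one level -/
inductive Ty
  | q
  | Y
  | E (i : Bool)
  | G (i : Bool)
  | z (i : Fin 16)
  deriving DecidableEq, Fintype

theorem card_Ty : Fintype.card Ty = 22 := by
  rfl

/-- index of a disk: copy and level; `none` is the disk `q 0` of the copy -/
abbrev Ix := ℕ × Option (ℕ × Ty)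

/-- the index of the previous disk `q` -/
def prev : ℕ → Option (ℕ × Ty)
  | 0 => none
  | (m + 1) => some (m, Ty.q)

/-- point of the plane -/
def P2 (x y : ℝ) : E2 := !₂[x, y]

theorem dist_P2 (x y x' y' : ℝ) :
    dist (P2 x y) (P2 x' y') = Real.sqrt ((x - x') ^ 2 + (y - y') ^ 2) := by
  unfold P2
  rw [EuclideanSpace.dist_eq]
  simp [Fin.sum_univ_two, Real.dist_eq, sq_abs]

theorem mt_P2 {x y x' y' r r' : ℝ} (h : 0 ≤ r + r') :
    Mt (P2 x y, r) (P2 x' y', r') ↔ (x - x') ^ 2 + (y - y') ^ 2 ≤ (r + r') ^ 2 := by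
  unfold Mt
  rw [dist_P2]
  exact Real.sqrt_le_left h

/-- direction of level `m`: horizontal for `m = 0,1,2`, vertical for `3,4,5`, ... -/
def hor (m : ℕ) : Bool := (m / 3) % 2 == 0

theorem hor_add_three (m : ℕ) : hor (m + 3) = !hor m := by
  unfold hor
  have h1 : (m + 3) / 3 = m / 3 + 1 := by omega
  rw [h1]
  rcases Nat.mod_two_eq_zero_or_one (m / 3) with h | h
  · have h2 : (m / 3 + 1) % 2 = 1 := by omega
    rw [h, h2]; rfl
  · have h2 : (m / 3 + 1) % 2 = 0 := by omega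
    rw [h, h2]; rfl

theorem hor_base {m : ℕ} (h : m < 3) : hor m = true := by
  interval_cases m <;> rfl

/-- components of the unit vector `u = (3/5, 4/5)` along and across the direction of level `m` -/
def ue (m : ℕ) : ℝ := if hor m then 3 / 5 else 4 / 5

def un (m : ℕ) : ℝ := if hor m then 4 / 5 else 3 / 5

theorem ue_un (m : ℕ) : 3 / 5 ≤ ue m ∧ ue m ≤ 4 / 5 ∧ 3 / 5 ≤ un m ∧ un m ≤ 4 / 5 ∧
    ue m ^ 2 + un m ^ 2 = 1 := by
  unfold ue un
  split_ifs <;> norm_num

/-- the point with coordinates `a` along and `b` across the direction of level `m`, relative to the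
centre of `q (m+1)` of copy `k` -/
def pt (B : ℝ) (k m : ℕ) (a b : ℝ) : E2 :=
  if hor m then P2 (4 * k + 3 / 5 * sig B (m + 1) + a) (4 / 5 * sig B (m + 1) + b)
  else P2 (4 * k + 3 / 5 * sig B (m + 1) + b) (4 / 5 * sig B (m + 1) + a)

def sgn (i : Bool) : ℝ := if i then 1 else -1

theorem sgn_sq (i : Bool) : sgn i ^ 2 = 1 := by
  cases i <;> simp [sgn]

/-- the disks `q m` -/
def qd (B : ℝ) (k m : ℕ) : Dk :=
  (P2 (4 * k + 3 / 5 * sig B m) (4 / 5 * sig B m), rho B m)

def Yd (B : ℝ) (k m : ℕ) : Dk := (pt B k m (-(rho B m / 2)) 0, 20 * rho B (m + 1))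

def Ed (B : ℝ) (k m : ℕ) (i : Bool) : Dk :=
  (pt B k m 0 (sgn i * (ss B m + 9 / 10 * rho B (m + 1))), ss B m)

def Gd (B : ℝ) (k m : ℕ) (i : Bool) : Dk :=
  (pt B k m 0 (sgn i * (200 * ss B m + 11 / 10 * rho B (m + 1))), 200 * ss B m)

def zd (B : ℝ) (k m : ℕ) (i : Fin 16) : Dk :=
  (pt B k m (-(rho B m / 2) + (((i : ℕ) : ℝ) - 15 / 2) * (273 / 100) * rho B (m + 1)) 0,
    13 / 10 * rho B (m + 1))

/-- all disks -/
def dk (B : ℝ) : Ix → Dk
  | (k, none) => qd B k 0
  | (k, some (m, Ty.q)) => qd B k (m + 1)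
  | (k, some (m, Ty.Y)) => Yd B k m
  | (k, some (m, Ty.E i)) => Ed B k m i
  | (k, some (m, Ty.G i)) => Gd B k m i
  | (k, some (m, Ty.z i)) => zd B k m i

theorem dk_prev (B : ℝ) (k m : ℕ) : dk B (k, prev m) = qd B k m := by
  cases m <;> rfl

theorem dk_pos {B : ℝ} (hB : 0 < B) (u : Ix) : 0 < (dk B u).2 := by
  have hr := rho_pos hB
  have hs := ss_pos hB
  rcases u with ⟨k, _ | ⟨m, t⟩⟩
  · exact hr 0
  · cases t with
    | q => exact hr (m + 1)
    | Y => exact mul_pos (by norm_num) (hr (m + 1))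
    | E i => exact hs m
    | G i => exact mul_pos (by norm_num) (hs m)
    | z i => exact mul_pos (by norm_num) (hr (m + 1))

/-- disks in the frame of the same level -/
theorem mt_pt {B : ℝ} {k m : ℕ} {a b a' b' r r' : ℝ} (h : 0 ≤ r + r') :
    Mt (pt B k m a b, r) (pt B k m a' b', r') ↔ (a - a') ^ 2 + (b - b') ^ 2 ≤ (r + r') ^ 2 := by
  unfold pt
  split_ifs
  · rw [mt_P2 h]
    ring_nf
  · rw [mt_P2 h]
    ring_nf

theorem dist_pt (B : ℝ) (k m : ℕ) (a b a' b' : ℝ) :
    dist (pt B k m a b) (pt B k m a' b') = Real.sqrt ((a - a') ^ 2 + (b - b') ^ 2) := by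
  unfold pt
  split_ifs
  · rw [dist_P2]
    ring_nf
  · rw [dist_P2]
    ring_nf

/-- `q (m+1)` in the frame of level `m` -/
theorem qd_succ (B : ℝ) (k m : ℕ) : qd B k (m + 1) = (pt B k m 0 0, rho B (m + 1)) := by
  unfold qd pt
  split_ifs <;> simp

/-- `q m` in the frame of level `m` -/
theorem qd_frame (B : ℝ) (k m : ℕ) :
    qd B k m = (pt B k m (-(ue m * rho B m)) (-(un m * rho B m)), rho B m) := by
  unfold qd pt ue un
  split_ifs
  · rw [sig_succ]
    ring_nf
  · rw [sig_succ]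
    ring_nf

/-- centre of a later level `n` in the frame of level `m` -/
theorem pt_zero (B : ℝ) (k m n : ℕ) : pt B k n 0 0 =
    pt B k m (ue m * (sig B (n + 1) - sig B (m + 1))) (un m * (sig B (n + 1) - sig B (m + 1))) := by
  unfold pt ue un
  split_ifs <;> ring_nf

/-- frame of level `m + 3` in the frame of level `m` (the directions are interchanged) -/
theorem pt_three (B : ℝ) (k m : ℕ) (a b : ℝ) : pt B k (m + 3) a b =
    pt B k m (ue m * (sig B (m + 4) - sig B (m + 1)) + b)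
      (un m * (sig B (m + 4) - sig B (m + 1)) + a) := by
  unfold pt ue un
  rw [hor_add_three]
  cases hor m
  · simp only [Bool.not_false, if_true, Bool.false_eq_true, if_false]
    ring_nf
  · simp only [Bool.not_true, if_true, Bool.false_eq_true, if_false]
    ring_nf

end

end BDD
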