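import Pool.Agent.Lib.MP_b55e0a_lc.Sub

/-! Disjointness between different copies. -/

set_option autoImplicit false

namespace BDD

variable {B : ℝ}

private theorem fd_absx (x y x' y' : ℝ) : |x - x'| ≤ dist (P2 x y) (P2 x' y') := by
  rw [dist_P2]
  apply Real.abs_le_sqrt
  nlinarith [sq_nonneg (y - y')]

private theorem fd_absy (x y x' y' : ℝ) : |y - y'| ≤ dist (P2 x y) (P2 x' y') := by
  rw [dist_P2]
  apply Real.abs_le_sqrt
  nlinarith [sq_nonneg (x - x')]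

private theorem fd_ctr (B : ℝ) (k m : ℕ) :
    pt B k m 0 0 = P2 (4 * k + 3 / 5 * sig B (m + 1)) (4 / 5 * sig B (m + 1)) := by
  unfold pt
  split_ifs <;> simp

private theorem fd_rho_one (hB : 10 ^ 6 ≤ B) {m : ℕ} (hm : 1 ≤ m) :
    0 < rho B m ∧ 1000000 * rho B m ≤ 1 := by
  have h0 : (0 : ℝ) < B := lt_of_lt_of_le (by norm_num) hB
  refine ⟨rho_pos h0 m, ?_⟩
  have h1 := rho_anti hB hm
  have h2 := rho_succ hB 0
  have h3 : rho B 0 = 1 := rfl
  rw [h3] at h2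
  norm_num at h2
  linarith

private theorem fd_kl {k l : ℕ} (hkl : k ≠ l) : (1 : ℝ) ≤ |(k : ℝ) - l| := by
  have h1 : (1 : ℤ) ≤ |(k : ℤ) - l| := by
    apply Int.one_le_abs
    intro h
    apply hkl
    omega
  exact_mod_cast h1

private theorem fd_far {k l : ℕ} (hkl : k ≠ l) {e : ℝ} :
    4 - |e| ≤ |4 * (k : ℝ) - 4 * (l : ℝ) + e| := by
  have h1 := fd_kl hkl
  have h2 : 4 * (k : ℝ) - 4 * (l : ℝ) = (4 * (k : ℝ) - 4 * (l : ℝ) + e) - e := by ring
  have h3 : |4 * (k : ℝ) - 4 * (l : ℝ)| = 4 * |(k : ℝ) - l| := by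
    rw [← mul_sub, abs_mul]
    norm_num
  have h4 := abs_sub (4 * (k : ℝ) - 4 * (l : ℝ) + e) e
  rw [← h2, h3] at h4
  linarith

/-- both disks lie within distance `4001 ρ 1` of points whose `x`-coordinates differ by `≥ 3.9` -/
theorem far_diff (hB : 10 ^ 6 ≤ B) {k l : ℕ} (hkl : k ≠ l) (m n : ℕ) (t t' : Ty) :
    ¬ Mt (dk B (k, some (m + 3, t))) (dk B (l, some (n + 3, t'))) := by
  intro h
  unfold Mt at h
  have h1 := sub_dk hB k m t
  have h2 := sub_dk hB l n t'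
  rw [fd_ctr] at h1 h2
  obtain ⟨hr, hr'⟩ := fd_rho_one hB (m := m + 1) (by omega)
  obtain ⟨hs, hs'⟩ := fd_rho_one hB (m := n + 1) (by omega)
  obtain ⟨ha, ha'⟩ := sig_bounds hB (m := m + 3 + 1) (by omega)
  obtain ⟨hb, hb'⟩ := sig_bounds hB (m := n + 3 + 1) (by omega)
  set X := dk B (k, some (m + 3, t)) with hX
  set Z := dk B (l, some (n + 3, t')) with hZ
  set σ := sig B (m + 3 + 1) with hσ
  set σ' := sig B (n + 3 + 1) with hσ'
  have h3 := fd_absx (4 * k + 3 / 5 * σ) (4 / 5 * σ) (4 * l + 3 / 5 * σ') (4 / 5 * σ')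
  have h4 : (4 * (k : ℝ) + 3 / 5 * σ) - (4 * (l : ℝ) + 3 / 5 * σ') =
      4 * (k : ℝ) - 4 * (l : ℝ) + 3 / 5 * (σ - σ') := by ring
  rw [h4] at h3
  have h5 := fd_far hkl (e := 3 / 5 * (σ - σ'))
  have h6 : |3 / 5 * (σ - σ')| ≤ 1 / 100 := by
    rw [abs_le]
    constructor <;> linarith
  have h7 := dist_triangle4 (P2 (4 * k + 3 / 5 * σ) (4 / 5 * σ)) X.1 Z.1
    (P2 (4 * l + 3 / 5 * σ') (4 / 5 * σ'))
  rw [dist_comm _ X.1] at h7
  linarith

private theorem fd_core (hB : 10 ^ 6 ≤ B) {l n : ℕ} (hn : 3 ≤ n) (t' : Ty) {X : Dk} {r : ℝ}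
    (hr : 4001 * rho B (n - 2) ≤ r)
    (h : X.2 + r < dist X.1 (P2 (4 * l + 3 / 5 * sig B (n + 1)) (4 / 5 * sig B (n + 1)))) :
    ¬ Mt X (dk B (l, some (n, t'))) := by
  obtain ⟨p, rfl⟩ : ∃ p, n = p + 3 := ⟨n - 3, by omega⟩
  have h1 := sub_dk hB l p t'
  rw [fd_ctr] at h1
  have h2 : p + 3 - 2 = p + 1 := by omega
  rw [h2] at hr
  exact not_mt_of_sub (r₀ := r) (by linarith) h

private theorem fd_pt (B : ℝ) (k : ℕ) {m : ℕ} (hm : m < 3) (a b : ℝ) :
    pt B k m a b = P2 (4 * k + 3 / 5 * sig B (m + 1) + a) (4 / 5 * sig B (m + 1) + b) := by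
  unfold pt
  rw [hor_base hm]
  rfl

private theorem fd_small (hB : 10 ^ 6 ≤ B) {k l : ℕ} (hkl : k ≠ l) {m n : ℕ} (hm : m < 3)
    {a r : ℝ} (ha : |a| ≤ 11 / 20) (hr : r ≤ 1 / 100) :
    r + 1 / 100 < dist (pt B k m a 0)
      (P2 (4 * l + 3 / 5 * sig B (n + 1)) (4 / 5 * sig B (n + 1))) := by
  rw [fd_pt B k hm]
  obtain ⟨hs, hs'⟩ := sig_bounds hB (m := m + 1) (by omega)
  obtain ⟨hb, hb'⟩ := sig_bounds hB (m := n + 1) (by omega)
  set σ := sig B (m + 1) with hσ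
  set σ' := sig B (n + 1) with hσ'
  have h3 := fd_absx (4 * k + 3 / 5 * σ + a) (4 / 5 * σ + 0) (4 * l + 3 / 5 * σ') (4 / 5 * σ')
  have h4 : (4 * (k : ℝ) + 3 / 5 * σ + a) - (4 * (l : ℝ) + 3 / 5 * σ') =
      4 * (k : ℝ) - 4 * (l : ℝ) + (3 / 5 * (σ - σ') + a) := by ring
  rw [h4] at h3
  have h5 := fd_far hkl (e := 3 / 5 * (σ - σ') + a)
  have h6 : |3 / 5 * (σ - σ') + a| ≤ 1 / 100 + 11 / 20 := by
    rw [abs_le] at ha ⊢
    constructor <;> linarith
  linarith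

private theorem fd_big (hB : 10 ^ 6 ≤ B) {k l : ℕ} {m n : ℕ} (hm : m < 3) (hn : m + 1 ≤ n)
    {s c : ℝ} (hs : 0 ≤ s) (hc : 9 / 10 * rho B (m + 1) ≤ c) (i : Bool) :
    s + 9 / 100 * rho B (m + 1) < dist (pt B k m 0 (sgn i * (s + c)))
      (P2 (4 * l + 3 / 5 * sig B (n + 1)) (4 / 5 * sig B (n + 1))) := by
  rw [fd_pt B k hm]
  have h0 : (0 : ℝ) < B := lt_of_lt_of_le (by norm_num) hB
  have hρ := rho_pos h0 (m + 1)
  obtain ⟨h1, h2⟩ := sig_sub_le hB (m := m + 1) (n := n + 1) (by omega)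
  set σ := sig B (m + 1) with hσ
  set σ' := sig B (n + 1) with hσ'
  have h3 := fd_absy (4 * k + 3 / 5 * σ + 0) (4 / 5 * σ + sgn i * (s + c)) (4 * l + 3 / 5 * σ')
    (4 / 5 * σ')
  have h4 : s + 9 / 100 * rho B (m + 1) < |4 / 5 * σ + sgn i * (s + c) - 4 / 5 * σ'| := by
    cases i
    · rw [lt_abs]
      right
      simp only [sgn, Bool.false_eq_true, if_false]
      linarith
    · rw [lt_abs]
      left
      simp only [sgn, if_true]
      linarith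
  exact lt_of_lt_of_le h4 h3

/-- levels `< 3` against levels `≥ 7`.  The directions of the levels `0,1,2` are horizontal; the
later centre is `(4l + 0.6 σ', 0.8 σ')`, the disk `E`/`G` of level `m` has centre
`(4k + 0.6σ, 0.8σ ± (r + h))`, `h ≥ 0.9 ρ (m+1)`, `σ' - σ ≤ 1.01 ρ (m+1)`: compare the second
coordinates; for the small disks compare the first coordinates. -/
theorem far_low (hB : 10 ^ 6 ≤ B) {k l : ℕ} (hkl : k ≠ l) {m n : ℕ} (hm : m < 3) (hn : 7 ≤ n)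
    (t t' : Ty) : ¬ Mt (dk B (k, some (m, t))) (dk B (l, some (n, t'))) := by
  have h0 : (0 : ℝ) < B := lt_of_lt_of_le (by norm_num) hB
  obtain ⟨hr, hr'⟩ := fd_rho_one hB (m := m + 1) (by omega)
  obtain ⟨hs, hs'⟩ := fd_rho_one hB (m := n - 2) (by omega)
  have hm1 : rho B m ≤ 1 := by
    have := rho_anti hB (Nat.zero_le m)
    exact this
  have hm0 := rho_pos h0 m
  have hA : 4001 * rho B (n - 2) ≤ 1 / 100 := by linarith
  have hC : 4001 * rho B (n - 2) ≤ 9 / 100 * rho B (m + 1) := by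
    have h1 : rho B (n - 2) ≤ rho B (m + 2) := rho_anti hB (by omega)
    have h2 := rho_succ hB (m + 1)
    norm_num at h2
    linarith
  cases t with
  | q =>
    refine fd_core hB (by omega) t' hA ?_
    have h1 : dk B (k, some (m, Ty.q)) = (pt B k m 0 0, rho B (m + 1)) := qd_succ B k m
    rw [h1]
    exact fd_small hB hkl hm (by norm_num) (by linarith)
  | Y =>
    refine fd_core hB (by omega) t' hA ?_
    show 20 * rho B (m + 1) + 1 / 100 < dist (pt B k m (-(rho B m / 2)) 0) _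
    exact fd_small hB hkl hm (by rw [abs_neg, abs_of_pos (by linarith)]; linarith) (by linarith)
  | E i =>
    refine fd_core hB (by omega) t' hC ?_
    show ss B m + 9 / 100 * rho B (m + 1) <
      dist (pt B k m 0 (sgn i * (ss B m + 9 / 10 * rho B (m + 1)))) _
    exact fd_big hB hm (by omega) (ss_pos h0 m).le le_rfl i
  | G i =>
    refine fd_core hB (by omega) t' hC ?_
    show 200 * ss B m + 9 / 100 * rho B (m + 1) <
      dist (pt B k m 0 (sgn i * (200 * ss B m + 11 / 10 * rho B (m + 1)))) _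
    exact fd_big hB hm (by omega) (by have := ss_pos h0 m; linarith) (by linarith) i
  | z i =>
    refine fd_core hB (by omega) t' hA ?_
    show 13 / 10 * rho B (m + 1) + 1 / 100 <
      dist (pt B k m (-(rho B m / 2) + (((i : ℕ) : ℝ) - 15 / 2) * (273 / 100) * rho B (m + 1)) 0) _
    refine fd_small hB hkl hm ?_ (by linarith)
    have hi : ((i : ℕ) : ℝ) ≤ 15 := by
      have : (i : ℕ) ≤ 15 := by omega
      exact_mod_cast this
    have hi0 : (0 : ℝ) ≤ ((i : ℕ) : ℝ) := Nat.cast_nonneg _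
    rw [abs_le]
    constructor <;> nlinarith

theorem far_low_zero (hB : 10 ^ 6 ≤ B) {k l : ℕ} (hkl : k ≠ l) {n : ℕ} (hn : 3 ≤ n) (t : Ty) :
    ¬ Mt (dk B (k, none)) (dk B (l, some (n, t))) := by
  obtain ⟨hs, hs'⟩ := fd_rho_one hB (m := n - 2) (by omega)
  refine fd_core hB hn t (r := 1 / 100) (by linarith) ?_
  show rho B 0 + 1 / 100 < dist (P2 (4 * k + 3 / 5 * sig B 0) (4 / 5 * sig B 0)) _
  have h0 : rho B 0 = 1 := rfl
  rw [h0, sig_zero]
  obtain ⟨hb, hb'⟩ := sig_bounds hB (m := n + 1) (by omega)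
  set σ' := sig B (n + 1) with hσ'
  have h3 := fd_absx (4 * k + 3 / 5 * 0) (4 / 5 * 0) (4 * l + 3 / 5 * σ') (4 / 5 * σ')
  have h4 : (4 * (k : ℝ) + 3 / 5 * 0) - (4 * (l : ℝ) + 3 / 5 * σ') =
      4 * (k : ℝ) - 4 * (l : ℝ) + (-(3 / 5 * σ')) := by ring
  rw [h4] at h3
  have h5 := fd_far hkl (e := -(3 / 5 * σ'))
  have h6 : |-(3 / 5 * σ')| ≤ 61 / 100 := by
    rw [abs_le]
    constructor <;> linarith
  linarith

end BDD
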