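import Pool.Agent.Lib.MP_b55e0a_lc.Sub

/-! Disks of one copy whose levels differ by at least `5` are disjoint. -/

set_option autoImplicit false

namespace BDD

variable {B : ℝ}

private lemma le_dist_pt_fst (B : ℝ) (k m : ℕ) (a b a' b' : ℝ) :
    |a - a'| ≤ dist (pt B k m a b) (pt B k m a' b') := by
  rw [dist_pt]
  apply Real.abs_le_sqrt
  nlinarith [sq_nonneg (b - b')]

private lemma le_dist_pt_snd (B : ℝ) (k m : ℕ) (a b a' b' : ℝ) :
    |b - b'| ≤ dist (pt B k m a b) (pt B k m a' b') := by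
  rw [dist_pt]
  apply Real.abs_le_sqrt
  nlinarith [sq_nonneg (a - a')]

/-- a disk `X` of level `m` is far from the centre `c` of a later level; in the frame of level `m`,
`c = (ue δ, un δ)` with `ρ (m+1) + ρ (m+2) ≤ δ ≤ 1.01 ρ (m+1)` (`pt_zero`, `le_sig_sub`,
`sig_sub_le`) -/
theorem far_same_aux (hB : 10 ^ 6 ≤ B) (k m n : ℕ) (t : Ty) (h : m + 2 ≤ n) :
    (dk B (k, some (m, t))).2 + 4001 * rho B (m + 3) <
      dist (dk B (k, some (m, t))).1 (pt B k n 0 0) := by
  have hB0 : 0 < B := by linarith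
  have hp := rho_pos hB0 m
  have hr := rho_pos hB0 (m + 1)
  have hr2 := rho_pos hB0 (m + 2)
  have hr3 := rho_pos hB0 (m + 3)
  have hs := ss_pos hB0 m
  have e1 := rho_succ hB m
  have e2 := rho_succ hB (m + 1)
  have e3 := rho_succ hB (m + 2)
  have d1 : rho B (m + 1) + rho B (m + 1 + 1) ≤ sig B (n + 1) - sig B (m + 1) :=
    le_sig_sub hB (by omega)
  have d2 : sig B (n + 1) - sig B (m + 1) ≤ 101 / 100 * rho B (m + 1) :=
    (sig_sub_le hB (by omega)).2
  obtain ⟨u1, u2, u3, u4, u5⟩ := ue_un m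
  rw [pt_zero B k m n]
  set δ : ℝ := sig B (n + 1) - sig B (m + 1) with hδ
  have hδ0 : 0 < δ := by linarith
  have hu1 : 0 < ue m * δ := mul_pos (by linarith) hδ0
  have hu3 : 0 < un m * δ := mul_pos (by linarith) hδ0
  have hu4 : un m * δ ≤ 4 / 5 * (101 / 100 * rho B (m + 1)) :=
    mul_le_mul u4 d2 hδ0.le (by norm_num)
  have e2' : 10 ^ 6 * rho B (m + 2) ≤ rho B (m + 1) := e2
  have e3' : 10 ^ 6 * rho B (m + 3) ≤ rho B (m + 2) := e3
  have d1' : rho B (m + 1) + rho B (m + 2) ≤ δ := d1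
  cases t with
  | q =>
    show (qd B k (m + 1)).2 + _ < dist (qd B k (m + 1)).1 _
    rw [qd_succ]
    show rho B (m + 1) + _ < dist (pt B k m 0 0) _
    rw [dist_pt]
    have : (0 - ue m * δ) ^ 2 + (0 - un m * δ) ^ 2 = δ ^ 2 := by
      have : (0 - ue m * δ) ^ 2 + (0 - un m * δ) ^ 2 = (ue m ^ 2 + un m ^ 2) * δ ^ 2 := by ring
      rw [this, u5, one_mul]
    rw [this, Real.sqrt_sq hδ0.le]
    linarith
  | Y =>
    show (Yd B k m).2 + _ < dist (Yd B k m).1 _
    refine lt_of_lt_of_le ?_ (le_dist_pt_fst B k m _ _ _ _)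
    show 20 * rho B (m + 1) + _ < _
    rw [lt_abs]
    right
    linarith
  | E i =>
    show (Ed B k m i).2 + _ < dist (Ed B k m i).1 _
    refine lt_of_lt_of_le ?_ (le_dist_pt_snd B k m _ _ _ _)
    show ss B m + _ < _
    rw [lt_abs]
    cases i
    · right
      simp only [sgn]
      norm_num
      linarith
    · left
      simp only [sgn]
      norm_num
      linarith
  | G i =>
    show (Gd B k m i).2 + _ < dist (Gd B k m i).1 _
    refine lt_of_lt_of_le ?_ (le_dist_pt_snd B k m _ _ _ _)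
    show 200 * ss B m + _ < _
    rw [lt_abs]
    cases i
    · right
      simp only [sgn]
      norm_num
      linarith
    · left
      simp only [sgn]
      norm_num
      linarith
  | z i =>
    show (zd B k m i).2 + _ < dist (zd B k m i).1 _
    refine lt_of_lt_of_le ?_ (le_dist_pt_fst B k m _ _ _ _)
    show 13 / 10 * rho B (m + 1) + _ < _
    rw [lt_abs]
    right
    have hi : ((i : ℕ) : ℝ) ≤ 15 := by
      have : (i : ℕ) ≤ 15 := by omega
      exact_mod_cast this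
    have : (((i : ℕ) : ℝ) - 15 / 2) * (273 / 100) * rho B (m + 1) ≤
        15 / 2 * (273 / 100) * rho B (m + 1) := by
      apply mul_le_mul_of_nonneg_right _ hr.le
      linarith
    linarith

theorem far_same (hB : 10 ^ 6 ≤ B) (k m n : ℕ) (t t' : Ty) (h : m + 5 ≤ n) :
    ¬ Mt (dk B (k, some (m, t))) (dk B (k, some (n, t'))) := by
  obtain ⟨p, rfl⟩ : ∃ p, n = p + 3 := ⟨n - 3, by omega⟩
  refine not_mt_of_sub (r₀ := 4001 * rho B (m + 3)) ?_
    (far_same_aux hB k m (p + 3) t (by omega))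
  have h1 := sub_dk hB k p t'
  have h2 : rho B (p + 1) ≤ rho B (m + 3) := rho_anti hB (by omega)
  linarith

/-- `q 0` and the disks of level `≥ 4` of the same copy -/
theorem far_zero (hB : 10 ^ 6 ≤ B) (k n : ℕ) (t : Ty) (h : 4 ≤ n) :
    ¬ Mt (dk B (k, none)) (dk B (k, some (n, t))) := by
  have hB0 : 0 < B := by linarith
  obtain ⟨p, rfl⟩ : ∃ p, n = p + 3 := ⟨n - 3, by omega⟩
  refine not_mt_of_sub (r₀ := 4001 * rho B 2) (c := pt B k (p + 3) 0 0) ?_ ?_
  · have h1 := sub_dk hB k p t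
    have h2 : rho B (p + 1) ≤ rho B 2 := rho_anti hB (by omega)
    linarith
  · have hr := rho_pos hB0 0
    have hr1 := rho_pos hB0 1
    have hr2 := rho_pos hB0 2
    have e1 : 10 ^ 6 * rho B 2 ≤ rho B 1 := rho_succ hB 1
    have d1 : rho B 0 + rho B (0 + 1) ≤ sig B (p + 3 + 1) - sig B 0 :=
      le_sig_sub hB (by omega)
    have d1' : rho B 0 + rho B 1 ≤ sig B (p + 3 + 1) - sig B 0 := d1
    show (qd B k 0).2 + _ < dist (qd B k 0).1 _
    rw [qd_frame]
    show rho B 0 + _ < dist (pt B k 0 _ _) _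
    rw [pt_zero B k 0 (p + 3), dist_pt]
    obtain ⟨-, -, -, -, u5⟩ := ue_un 0
    have hs1 : sig B (0 + 1) = sig B 0 + rho B 0 := sig_succ 0
    have : (-(ue 0 * rho B 0) - ue 0 * (sig B (p + 3 + 1) - sig B (0 + 1))) ^ 2 +
        (-(un 0 * rho B 0) - un 0 * (sig B (p + 3 + 1) - sig B (0 + 1))) ^ 2 =
        (sig B (p + 3 + 1) - sig B 0) ^ 2 := by
      rw [hs1]
      have : (-(ue 0 * rho B 0) - ue 0 * (sig B (p + 3 + 1) - (sig B 0 + rho B 0))) ^ 2 +
          (-(un 0 * rho B 0) - un 0 * (sig B (p + 3 + 1) - (sig B 0 + rho B 0))) ^ 2 =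
          (ue 0 ^ 2 + un 0 ^ 2) * (sig B (p + 3 + 1) - sig B 0) ^ 2 := by ring
      rw [this, u5, one_mul]
    rw [this, Real.sqrt_sq (by linarith)]
    linarith

end BDD
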