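import Pool.Agent.Lib.MP_b55e0a_lc.Basic

/-! The gap between two disjoint large disks varies slowly. -/

set_option autoImplicit false

namespace BDD

/-- squared distances to two centres: `R₂ |z-c₁|² + R₁ |z-c₂|² = (R₁+R₂) |z-z*|² + R₁R₂/(R₁+R₂) |c₁-c₂|²`,
written without denominators through the vector `w = (R₁+R₂) z - R₂ c₁ - R₁ c₂` -/
private theorem gap_id (x y : E2) (R₁ R₂ : ℝ) :
    (R₁ + R₂) * (R₂ * ‖x‖ ^ 2 + R₁ * ‖y‖ ^ 2) = ‖R₂ • x + R₁ • y‖ ^ 2 + R₁ * R₂ * ‖x - y‖ ^ 2 := by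
  rw [← real_inner_self_eq_norm_sq, ← real_inner_self_eq_norm_sq, ← real_inner_self_eq_norm_sq,
    ← real_inner_self_eq_norm_sq]
  simp only [inner_add_left, inner_add_right, inner_sub_left, inner_sub_right,
    real_inner_smul_left, real_inner_smul_right, real_inner_comm]
  ring

/-- real arithmetic at the end of the proof of `gap` -/
private theorem gap_arith {R₁ R₂ Λ α β D X Y u v : ℝ} (hΛ : 0 < Λ) (h1 : Λ ≤ R₁) (h2 : Λ ≤ R₂)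
    (hα : 0 ≤ α) (hβ : 0 ≤ β) (hD : 0 ≤ D)
    -- `u² `, `v²`: squared norms of `w` at `p` and `q`; `|w_q - w_p| ≤ (R₁+R₂) D`
    (hv : v ≤ u + (R₁ + R₂) * D) (hu0 : 0 ≤ u) (hv0 : 0 ≤ v)
    (hX : X = (R₁ + R₂) ^ 2) (hY : X ≤ Y)
    (hp : u ^ 2 + R₁ * R₂ * Y ≤ (R₁ + R₂) * (R₂ * (α + R₁) ^ 2 + R₁ * (α + R₂) ^ 2))
    (hq : (R₁ + R₂) * (R₂ * (β + R₁) ^ 2 + R₁ * (β + R₂) ^ 2) ≤ v ^ 2 + R₁ * R₂ * Y) :
    β ≤ 11 / 10 * (α + α ^ 2 / (2 * Λ)) + 11 / 2 * (D ^ 2 / Λ) := by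
  have hR₁ : 0 < R₁ := by linarith
  have hR₂ : 0 < R₂ := by linarith
  set s : ℝ := R₁ + R₂ with hs
  have hs0 : 0 < s := by positivity
  set m : ℝ := R₁ * R₂ with hm
  have hm0 : 0 < m := by positivity
  -- `s (R₂ (t+R₁)² + R₁ (t+R₂)²) = s² t² + 4 m s t + m s²`
  have e : ∀ t : ℝ, s * (R₂ * (t + R₁) ^ 2 + R₁ * (t + R₂) ^ 2) =
      s ^ 2 * t ^ 2 + 4 * m * s * t + m * s ^ 2 := by
    intro t
    rw [hs, hm]
    ring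
  rw [e] at hp hq
  rw [hX] at hY
  set K : ℝ := m * (Y - s ^ 2) with hK
  have hK0 : 0 ≤ K := by
    rw [hK]
    exact mul_nonneg hm0.le (by linarith)
  have hp' : u ^ 2 + K ≤ s ^ 2 * α ^ 2 + 4 * m * s * α := by
    rw [hK]; linarith
  have hq' : s ^ 2 * β ^ 2 + 4 * m * s * β ≤ v ^ 2 + K := by
    rw [hK]; linarith
  -- `v² ≤ (11/10) u² + 11 s² D²`
  have hv2 : v ^ 2 ≤ 11 / 10 * u ^ 2 + 11 * (s * D) ^ 2 := by
    have h3 : 0 ≤ s * D := by positivity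
    have h4 : v ^ 2 ≤ (u + s * D) ^ 2 := pow_le_pow_left₀ hv0 hv 2
    nlinarith [sq_nonneg (u - 10 * (s * D))]
  have hmain : 4 * m * s * β ≤ 11 / 10 * (s ^ 2 * α ^ 2 + 4 * m * s * α) + 11 * (s * D) ^ 2 := by
    have h5 : 0 ≤ s ^ 2 * β ^ 2 := by positivity
    nlinarith
  -- `s Λ ≤ 2 m`
  have hsm : s * Λ ≤ 2 * m := by
    rw [hs, hm]
    nlinarith
  have hdiv : 4 * s * Λ * (4 * m * s * β) ≤ 4 * s * Λ *
      (11 / 10 * (s ^ 2 * α ^ 2 + 4 * m * s * α) + 11 * (s * D) ^ 2) :=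
    mul_le_mul_of_nonneg_left hmain (by positivity)
  -- divide by `4 m s`
  have h6 : β ≤ 11 / 10 * (s * α ^ 2 / (4 * m) + α) + 11 * (s * D ^ 2 / (4 * m)) := by
    have h7 : 4 * m * s * β ≤ 4 * m * s *
        (11 / 10 * (s * α ^ 2 / (4 * m) + α) + 11 * (s * D ^ 2 / (4 * m))) := by
      refine hmain.trans (le_of_eq ?_)
      field_simp
    exact le_of_mul_le_mul_left h7 (by positivity)
  have h8 : s / (4 * m) ≤ 1 / (2 * Λ) := by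
    rw [div_le_div_iff₀ (by positivity) (by positivity)]
    linarith
  have h9 : s * α ^ 2 / (4 * m) ≤ α ^ 2 / (2 * Λ) := by
    have := mul_le_mul_of_nonneg_right h8 (sq_nonneg α)
    calc s * α ^ 2 / (4 * m) = s / (4 * m) * α ^ 2 := by ring
      _ ≤ 1 / (2 * Λ) * α ^ 2 := this
      _ = α ^ 2 / (2 * Λ) := by ring
  have h10 : s * D ^ 2 / (4 * m) ≤ D ^ 2 / (2 * Λ) := by
    have := mul_le_mul_of_nonneg_right h8 (sq_nonneg D)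
    calc s * D ^ 2 / (4 * m) = s / (4 * m) * D ^ 2 := by ring
      _ ≤ 1 / (2 * Λ) * D ^ 2 := this
      _ = D ^ 2 / (2 * Λ) := by ring
  have h11 : D ^ 2 / (2 * Λ) = 1 / 2 * (D ^ 2 / Λ) := by ring
  rw [h11] at h10
  linarith

/-- `G₁`, `G₂` disjoint with radii `≥ Λ`; `p` meets both, `q` meets neither.
Proof: `φ(z) = Σ (|z - cᵢ|² - Rᵢ²)/(2Rᵢ) = h |z - z*|² + m` with `h = 1/(2R₁) + 1/(2R₂) ≤ 1/Λ`,
`z* = (R₂ c₁ + R₁ c₂)/(R₁+R₂)` and `m = φ(z*) > 0` since `|z* - cᵢ| = Rᵢ |c₁-c₂|/(R₁+R₂) > Rᵢ`.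
`φ(q) > 2 r(q)`, `φ(p) ≤ 2 r(p) + r(p)²/Λ`, and
`φ(q) = φ(p) + h|q-p|² + 2h⟨q-p, p-z*⟩ ≤ φ(p) + h|q-p|² + h(10|q-p|² + |p-z*|²/10)
 ≤ (11/10) φ(p) + 11 h D²`. -/
theorem gap {G₁ G₂ p q : Dk} {Λ D : ℝ} (hΛ : 0 < Λ) (h1 : Λ ≤ G₁.2) (h2 : Λ ≤ G₂.2)
    (hp : 0 ≤ p.2) (hq : 0 ≤ q.2) (hG : ¬ Mt G₁ G₂) (hp1 : Mt p G₁) (hp2 : Mt p G₂)
    (hq1 : ¬ Mt q G₁) (hq2 : ¬ Mt q G₂) (hD : dist p.1 q.1 ≤ D) :
    q.2 ≤ 11 / 10 * (p.2 + p.2 ^ 2 / (2 * Λ)) + 11 / 2 * (D ^ 2 / Λ) := by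
  unfold Mt at hG hp1 hp2 hq1 hq2
  rw [not_le] at hG hq1 hq2
  rw [dist_eq_norm] at hG hp1 hp2 hq1 hq2 hD
  have hR₁ : 0 < G₁.2 := by linarith
  have hR₂ : 0 < G₂.2 := by linarith
  have hD0 : 0 ≤ D := (norm_nonneg _).trans hD
  have hYn : ‖(p.1 - G₁.1) - (p.1 - G₂.1)‖ = ‖G₁.1 - G₂.1‖ := by
    rw [← norm_neg]
    congr 1
    abel
  have hYn' : ‖(q.1 - G₁.1) - (q.1 - G₂.1)‖ = ‖G₁.1 - G₂.1‖ := by
    rw [← norm_neg]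
    congr 1
    abel
  have idp := gap_id (p.1 - G₁.1) (p.1 - G₂.1) G₁.2 G₂.2
  have idq := gap_id (q.1 - G₁.1) (q.1 - G₂.1) G₁.2 G₂.2
  rw [hYn] at idp
  rw [hYn'] at idq
  refine gap_arith (u := ‖G₂.2 • (p.1 - G₁.1) + G₁.2 • (p.1 - G₂.1)‖)
    (v := ‖G₂.2 • (q.1 - G₁.1) + G₁.2 • (q.1 - G₂.1)‖) (Y := ‖G₁.1 - G₂.1‖ ^ 2)
    hΛ h1 h2 hp hq hD0 ?_ (norm_nonneg _) (norm_nonneg _) rfl ?_ ?_ ?_
  · have e : G₂.2 • (q.1 - G₁.1) + G₁.2 • (q.1 - G₂.1) =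
        (G₂.2 • (p.1 - G₁.1) + G₁.2 • (p.1 - G₂.1)) - (G₁.2 + G₂.2) • (p.1 - q.1) := by
      module
    rw [e]
    refine (norm_sub_le _ _).trans ?_
    rw [norm_smul, Real.norm_of_nonneg (by positivity)]
    have := mul_le_mul_of_nonneg_left hD (by positivity : 0 ≤ G₁.2 + G₂.2)
    linarith
  · exact pow_le_pow_left₀ (by positivity) hG.le 2
  · rw [← idp]
    refine mul_le_mul_of_nonneg_left (add_le_add ?_ ?_) (by positivity)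
    · exact mul_le_mul_of_nonneg_left (pow_le_pow_left₀ (norm_nonneg _) hp1 2) hR₂.le
    · exact mul_le_mul_of_nonneg_left (pow_le_pow_left₀ (norm_nonneg _) hp2 2) hR₁.le
  · rw [← idq]
    refine mul_le_mul_of_nonneg_left (add_le_add ?_ ?_) (by positivity)
    · exact mul_le_mul_of_nonneg_left (pow_le_pow_left₀ (by positivity) hq1.le 2) hR₂.le
    · exact mul_le_mul_of_nonneg_left (pow_le_pow_left₀ (by positivity) hq2.le 2) hR₁.le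

end BDD
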