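import Pool.Agent.Lib.MP_b55e0a_lc.GoodDef
import Pool.Agent.Lib.MP_b55e0a_lc.Chain
import Pool.Agent.Lib.MP_b55e0a_lc.Area

/-! Every configuration with the relations `Good` has a doubly exponential ratio. -/

set_option autoImplicit false

namespace BDD

private theorem goodA_far {R : ℕ} (hR : (10 ^ 10 + 2) ^ 2 ≤ R) {t r : ℝ} (ht : 0 < t) (hr : 0 < r)
    (h : (R : ℝ) * t ^ 2 ≤ (r + 2 * t) ^ 2) : 10 ^ 10 * t ≤ r := by
  have hR' : ((10 : ℝ) ^ 10 + 2) ^ 2 ≤ R := by exact_mod_cast hR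
  have h1 : ((10 ^ 10 + 2) * t) ^ 2 ≤ (r + 2 * t) ^ 2 := by
    rw [mul_pow]
    exact (mul_le_mul_of_nonneg_right hR' (sq_nonneg t)).trans h
  have h2 := abs_le_of_sq_le_sq h1 (by positivity)
  have h3 := le_abs_self ((10 ^ 10 + 2) * t)
  linarith

/-- Let `k < R` be such that `t = r(F (k, none))` is minimal.  `area` for the disks `F (l, none)`,
`l < R`, and a large disk `H` of level `< 3` gives `R t² ≤ (r(H) + 2t)²`, so `r(H) ≥ 10^10 t`.  Apply
`Chain.ratio` to `q m = F (k, prev m)` etc. -/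
theorem Good.ratio {R L : ℕ} {F : Ix → Dk} (h : Good R L F) (hF : ∀ u, 0 < (F u).2)
    (hR : (10 ^ 10 + 2) ^ 2 ≤ R) (N : ℕ) (hL : 2 * N + 3 ≤ L) :
    ∃ k < R, 2 ^ (2 ^ N) * (F (k, some (2 * N + 2, Ty.q))).2 ≤ (F (k, prev (2 * N + 2))).2 := by
  have hR0 : 0 < R := lt_of_lt_of_le (by norm_num) hR
  obtain ⟨k, hk, hmin⟩ := Finset.exists_min_image (Finset.range R) (fun k => (F (k, none)).2)
    ⟨0, Finset.mem_range.2 hR0⟩
  have hk := Finset.mem_range.1 hk
  have key : ∀ u : Ix, (∀ l, l < R → Mt (F (l, none)) (F u)) →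
      10 ^ 10 * (F (k, none)).2 ≤ (F u).2 := by
    intro u hu
    refine goodA_far hR (hF _) (hF _) ?_
    have h1 := area (fun l : Fin R => F ((l : ℕ), none)) (F u) (hF (k, none))
      (fun l => hmin _ (Finset.mem_range.2 l.2))
      (fun i j hij => h.TT i j i.2 j.2 fun e => hij (Fin.ext e)) (hF u).le (fun l => hu l l.2)
    rwa [Fintype.card_fin] at h1
  refine ⟨k, hk, ?_⟩
  have hc : Chain L (fun m => F (k, prev m)) (fun m => F (k, some (m, Ty.Y)))
      (fun m i => F (k, some (m, Ty.E i))) (fun m i => F (k, some (m, Ty.G i)))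
      (fun m i => F (k, some (m, Ty.z i))) :=
    { pq := fun m _ => hF _
      pY := fun m _ => hF _
      pE := fun m _ i => hF _
      pG := fun m _ i => hF _
      pz := fun m _ i => hF _
      gad := fun m hm => h.gad k m hk hm
      far := fun m hm i j => h.far k m hk hm i j
      base := fun m hm hmL i =>
        ⟨key _ fun l hl => (h.base k m l hk hm hmL hl i).1,
          key _ fun l hl => (h.base k m l hk hm hmL hl i).2⟩ }
  exact hc.ratio N hL

end BDD
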