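import Pool.Agent.Lib.MP_b55e0a_lc.Config

/-! The large disks of the levels `0, 1, 2` of all copies meet all disks `q 0`; these are pairwise
disjoint. -/

set_option autoImplicit false

namespace BDD

variable {B : ℝ}

private theorem rb_aux {R : ℝ} {k l r h σ : ℝ} (hk0 : 0 ≤ k) (hk : k ≤ R) (hl0 : 0 ≤ l)
    (hl : l ≤ R) (hr : 3 * (4 * R + 1) ^ 2 ≤ r) (hr0 : 0 < r) (h0 : 0 ≤ h) (hh : h ≤ 1 / 1000)
    (hσ1 : 1 ≤ σ) (hσ2 : σ ≤ 101 / 100) (i : Bool) :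
    (4 * l + 3 / 5 * 0 - (4 * k + 3 / 5 * σ + 0)) ^ 2 +
      (4 / 5 * 0 - (4 / 5 * σ + sgn i * (r + h))) ^ 2 ≤ (1 + r) ^ 2 := by
  have h1 : (4 * l + 3 / 5 * 0 - (4 * k + 3 / 5 * σ + 0)) ^ 2 ≤ (4 * R + 1) ^ 2 := by
    apply sq_le_sq' <;> linarith
  have h2 : (4 / 5 * 0 - (4 / 5 * σ + sgn i * (r + h))) ^ 2 ≤ (r + 81 / 100) ^ 2 := by
    apply sq_le_sq'
    · cases i <;> simp only [sgn, Bool.false_eq_true, if_true, if_false] <;> linarith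
    · cases i <;> simp only [sgn, Bool.false_eq_true, if_true, if_false] <;> linarith
  nlinarith

private theorem rb_mt {R : ℕ} (hB : 10 ^ 6 ≤ B) {k l m : ℕ}
    (hk : k < R) (hl : l < R) (hm : m < 3) (i : Bool) (r h : ℝ)
    (hr : 3 * (4 * (R : ℝ) + 1) ^ 2 ≤ r) (hr0 : 0 < r) (h0 : 0 ≤ h) (hh : h ≤ 1 / 1000) :
    Mt (qd B l 0) (pt B k m 0 (sgn i * (r + h)), r) := by
  obtain ⟨s1, s2⟩ := sig_bounds hB (show 1 ≤ m + 1 by omega)
  have hr1 : rho B 0 = 1 := rfl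
  have hk' : (k : ℝ) ≤ R := by exact_mod_cast hk.le
  have hl' : (l : ℝ) ≤ R := by exact_mod_cast hl.le
  unfold qd pt
  rw [if_pos (hor_base hm), sig_zero, hr1, mt_P2 (by linarith)]
  exact rb_aux (Nat.cast_nonneg k) hk' (Nat.cast_nonneg l) hl' hr hr0 h0 hh s1 s2 i

/-- `hor_base`, `ss_base`, `sig_bounds`.  The centre of the large disk (radius `r ≥ 3 (4R+1)²`) is
`(4k + 0.6σ, 0.8σ ± (r + h))` with `1 ≤ σ ≤ 1.01`, `h ≤ 1.1 ρ 1 ≤ 0.001`: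
`(4R+1)² + (r + 0.81)² ≤ (r + 1)²`. -/
theorem rel_base {R : ℕ} (hB : 10 ^ 6 ≤ B) (hBR : 3 * (4 * (R : ℝ) + 1) ^ 2 ≤ B) {k l m : ℕ}
    (hk : k < R) (hl : l < R) (hm : m < 3) (i : Bool) :
    Mt (qd B l 0) (Ed B k m i) ∧ Mt (qd B l 0) (Gd B k m i) := by
  have hB0 : 0 < B := by linarith
  have h1 : rho B (m + 1) ≤ 1 / 10 ^ 6 := by
    have e1 := rho_anti hB (show 0 + 1 ≤ m + 1 by omega)
    have e2 := rho_succ hB 0
    have e3 : rho B 0 = 1 := rfl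
    rw [e3] at e2
    linarith
  have h3 := rho_pos hB0 (m + 1)
  have h4 := ss_base hB0 hm
  constructor
  · exact rb_mt hB hk hl hm i (ss B m) (9 / 10 * rho B (m + 1)) (by rw [h4]; exact hBR)
      (by rw [h4]; exact hB0) (by linarith) (by linarith)
  · exact rb_mt hB hk hl hm i (200 * ss B m) (11 / 10 * rho B (m + 1))
      (by rw [h4]; linarith) (by rw [h4]; linarith) (by linarith) (by linarith)

theorem rel_TT {k l : ℕ} (h : k ≠ l) : ¬ Mt (qd B k 0) (qd B l 0) := by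
  have hr1 : rho B 0 = 1 := rfl
  unfold qd
  rw [sig_zero, hr1, mt_P2 (by norm_num)]
  push Not
  have h1 : (1 : ℝ) ≤ ((k : ℝ) - l) ^ 2 := by
    rcases Nat.lt_or_gt_of_ne h with h | h
    · have : (k : ℝ) + 1 ≤ l := by exact_mod_cast h
      nlinarith
    · have : (l : ℝ) + 1 ≤ k := by exact_mod_cast h
      nlinarith
  nlinarith

end BDD
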