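import Pool.Agent.Lib.MP_b55e0a_lc.Config

/-! The large disks of level `m + 3` meet the disks `G` of level `m`. -/

set_option autoImplicit false

namespace BDD

variable {B : ℝ}

/-- `r` = radius of the disk of level `m+3` (`r ≥ 10 ρ'`, `ρ' = ρ (m+1)`), at height `r + h`,
`S = 200 s m ≥ 100 ρ'`, displacement `δ ≤ 1.01 ρ'`:
`(r + h + 0.8δ)² + (S + 1.1ρ' + 0.8δ)² ≤ (r + S)²`. -/
theorem rel_far_aux {ρ' r h S δ a b : ℝ} (hρ : 0 < ρ') (hr : 10 * ρ' ≤ r) (h0 : 0 ≤ h)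
    (hh : h ≤ ρ' / 1000) (hS : 100 * ρ' ≤ S) (hδ0 : 0 ≤ δ) (hδ : δ ≤ 101 / 100 * ρ')
    (ha : 0 ≤ a) (ha1 : a ≤ 4 / 5) (hb : 0 ≤ b) (hb1 : b ≤ 4 / 5) (i j : Bool) :
    (a * δ + sgn i * (r + h) - 0) ^ 2 + (b * δ - sgn j * (S + 11 / 10 * ρ')) ^ 2 ≤
      (r + S) ^ 2 := by
  have hA0 : 0 ≤ a * δ := mul_nonneg ha hδ0
  have hB0 : 0 ≤ b * δ := mul_nonneg hb hδ0
  have hA : a * δ ≤ 101 / 125 * ρ' := by
    calc a * δ ≤ 4 / 5 * (101 / 100 * ρ') := mul_le_mul ha1 hδ hδ0 (by norm_num)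
      _ = _ := by ring
  have hBb : b * δ ≤ 101 / 125 * ρ' := by
    calc b * δ ≤ 4 / 5 * (101 / 100 * ρ') := mul_le_mul hb1 hδ hδ0 (by norm_num)
      _ = _ := by ring
  generalize a * δ = A at *
  generalize b * δ = C at *
  have h1 : (A + sgn i * (r + h) - 0) ^ 2 ≤ (r + 81 / 100 * ρ') ^ 2 := by
    apply sq_le_sq'
    · cases i <;> simp only [sgn, Bool.false_eq_true, if_true, if_false] <;> linarith
    · cases i <;> simp only [sgn, Bool.false_eq_true, if_true, if_false] <;> linarith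
  have h2 : (C - sgn j * (S + 11 / 10 * ρ')) ^ 2 ≤ (S + 191 / 100 * ρ') ^ 2 := by
    apply sq_le_sq'
    · cases j <;> simp only [sgn, Bool.false_eq_true, if_true, if_false] <;> linarith
    · cases j <;> simp only [sgn, Bool.false_eq_true, if_true, if_false] <;> linarith
  have h3 : (r + 81 / 100 * ρ') ^ 2 + (S + 191 / 100 * ρ') ^ 2 ≤ (r + S) ^ 2 := by
    have e1 : 0 ≤ (r - 10 * ρ') * (S - 100 * ρ') :=
      mul_nonneg (by linarith) (by linarith)
    have e2 : 0 ≤ (r - 10 * ρ') * ρ' := mul_nonneg (by linarith) hρ.le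
    have e3 : 0 ≤ (S - 100 * ρ') * ρ' := mul_nonneg (by linarith) hρ.le
    have e4 : 0 < ρ' * ρ' := mul_pos hρ hρ
    nlinarith
  linarith

private theorem rf_small (hB : 10 ^ 6 ≤ B) (m : ℕ) :
    10 ^ 6 * rho B (m + 4) ≤ rho B (m + 1) := by
  have h1 := rho_succ hB (m + 1)
  have h2 := rho_anti hB (show m + 1 + 1 ≤ m + 4 by omega)
  linarith

private theorem rf_big (hB : 10 ^ 6 ≤ B) (m : ℕ) :
    100 * rho B (m + 1) ≤ 200 * ss B m := by
  have h1 := ss_ge hB m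
  have h2 := rho_succ hB m
  have h3 := rho_pos (show 0 < B by linarith) (m + 1)
  linarith

private theorem rf_mt (hB : 10 ^ 6 ≤ B) (k m : ℕ) (i j : Bool) (r h : ℝ)
    (hr : 10 * rho B (m + 1) ≤ r) (h0 : 0 ≤ h) (hh : h ≤ rho B (m + 1) / 1000) :
    Mt (pt B k (m + 3) 0 (sgn i * (r + h)), r) (Gd B k m j) := by
  have hp := rho_pos (show 0 < B by linarith) (m + 1)
  have hS := rf_big hB m
  obtain ⟨hd0, hd⟩ := sig_sub_le hB (show m + 1 < m + 4 by omega)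
  obtain ⟨u1, u2, u3, u4, -⟩ := ue_un m
  unfold Gd
  rw [pt_three, mt_pt (by linarith), add_zero]
  exact rel_far_aux hp hr h0 hh hS (by linarith) hd (by linarith) u2 (by linarith) u4 i j

/-- `pt_three`, `ss_step`, `sig_sub_le` -/
theorem rel_far (hB : 10 ^ 6 ≤ B) (k m : ℕ) (i j : Bool) :
    Mt (Ed B k (m + 3) i) (Gd B k m j) ∧ Mt (Gd B k (m + 3) i) (Gd B k m j) := by
  have hB0 : 0 < B := by linarith
  have h1 := rf_small hB m
  have h2 := ss_step hB0 m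
  have h3 := rho_pos hB0 (m + 4)
  have h4 := rho_pos hB0 (m + 1)
  constructor
  · exact rf_mt hB k m i j (ss B (m + 3)) (9 / 10 * rho B (m + 4)) (by linarith) (by linarith)
      (by linarith)
  · exact rf_mt hB k m i j (200 * ss B (m + 3)) (11 / 10 * rho B (m + 4)) (by linarith)
      (by linarith) (by linarith)

end BDD
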