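import Pool.Agent.Lib.MP_b55e0a_lc.Config

/-! The gadget relations hold for the explicit disks: relations inside one level. -/

set_option autoImplicit false

namespace BDD

variable {B : ℝ}

private theorem gad_facts (hB : 10 ^ 6 ≤ B) (m : ℕ) : 0 < rho B m ∧ 0 < rho B (m + 1) ∧ 0 < ss B m ∧
    200 * ss B m * rho B (m + 1) = rho B m ^ 2 ∧ 10 ^ 6 * rho B (m + 1) ≤ rho B m ∧
    5000 * rho B m ≤ ss B m := by
  have hB0 : 0 < B := lt_of_lt_of_le (by norm_num) hB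
  exact ⟨rho_pos hB0 m, rho_pos hB0 (m + 1), ss_pos hB0 m, ss_mul hB0 m, rho_succ hB m, ss_ge hB m⟩

private theorem gad_fin (i : Fin 16) : -(15 / 2 : ℝ) ≤ ((i : ℕ) : ℝ) - 15 / 2 ∧
    ((i : ℕ) : ℝ) - 15 / 2 ≤ 15 / 2 := by
  have h1 : (0 : ℝ) ≤ ((i : ℕ) : ℝ) := Nat.cast_nonneg _
  have h2 : ((i : ℕ) : ℝ) ≤ 15 := by
    have := i.isLt
    have h3 : (i : ℕ) ≤ 15 := by omega
    exact_mod_cast h3
  constructor <;> linarith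

/-- distance of the centres is `2 s + 1.8 ρ' > 2 s` (`mt_pt`) -/
theorem rel_EE (hB : 10 ^ 6 ≤ B) (k m : ℕ) : ¬ Mt (Ed B k m true) (Ed B k m false) := by
  obtain ⟨h1, h2, h3, h4, h5, h6⟩ := gad_facts hB m
  unfold Ed
  rw [mt_pt (by positivity)]
  simp only [sgn, if_true, Bool.false_eq_true, if_false]
  nlinarith [mul_pos h2 h3, mul_pos h2 h2]

theorem rel_GG (hB : 10 ^ 6 ≤ B) (k m : ℕ) : ¬ Mt (Gd B k m true) (Gd B k m false) := by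
  obtain ⟨h1, h2, h3, h4, h5, h6⟩ := gad_facts hB m
  unfold Gd
  rw [mt_pt (by positivity)]
  simp only [sgn, if_true, Bool.false_eq_true, if_false]
  nlinarith [mul_pos h2 h3, mul_pos h2 h2]

/-- `s + 0.9 ρ' ≤ s + ρ'` -/
theorem rel_qE (hB : 10 ^ 6 ≤ B) (k m : ℕ) (i : Bool) : Mt (qd B k (m + 1)) (Ed B k m i) := by
  obtain ⟨h1, h2, h3, h4, h5, h6⟩ := gad_facts hB m
  rw [qd_succ]
  unfold Ed
  rw [mt_pt (by positivity)]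
  have hs := sgn_sq i
  have e : (0 - 0 : ℝ) ^ 2 + (0 - sgn i * (ss B m + 9 / 10 * rho B (m + 1))) ^ 2 =
      sgn i ^ 2 * (ss B m + 9 / 10 * rho B (m + 1)) ^ 2 := by ring
  rw [e, hs]
  nlinarith [mul_pos h2 h3, mul_pos h2 h2]

/-- `S + 1.1 ρ' > S + ρ'` -/
theorem rel_qG (hB : 10 ^ 6 ≤ B) (k m : ℕ) (i : Bool) : ¬ Mt (qd B k (m + 1)) (Gd B k m i) := by
  obtain ⟨h1, h2, h3, h4, h5, h6⟩ := gad_facts hB m
  rw [qd_succ]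
  unfold Gd
  rw [mt_pt (by positivity)]
  have hs := sgn_sq i
  have e : (0 - 0 : ℝ) ^ 2 + (0 - sgn i * (200 * ss B m + 11 / 10 * rho B (m + 1))) ^ 2 =
      sgn i ^ 2 * (200 * ss B m + 11 / 10 * rho B (m + 1)) ^ 2 := by ring
  rw [e, hs]
  nlinarith [mul_pos h2 h3, mul_pos h2 h2]

/-- `ρ²/4 + (s + 0.9ρ')² > (s + 20ρ')²`, since `38.2 ρ' s = 0.191 ρ²` (`ss_mul`) and
`ρ' ≤ ρ/10^6` -/
theorem rel_YE (hB : 10 ^ 6 ≤ B) (k m : ℕ) (i : Bool) : ¬ Mt (Yd B k m) (Ed B k m i) := by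
  obtain ⟨h1, h2, h3, h4, h5, h6⟩ := gad_facts hB m
  unfold Yd Ed
  rw [mt_pt (by positivity)]
  have hs := sgn_sq i
  have e : (-(rho B m / 2) - 0 : ℝ) ^ 2 +
      (0 - sgn i * (ss B m + 9 / 10 * rho B (m + 1))) ^ 2 =
      rho B m ^ 2 / 4 + sgn i ^ 2 * (ss B m + 9 / 10 * rho B (m + 1)) ^ 2 := by ring
  rw [e, hs]
  have h7 : (10 ^ 6 * rho B (m + 1)) ^ 2 ≤ rho B m ^ 2 := pow_le_pow_left₀ (by positivity) h5 2
  nlinarith [mul_pos h2 h3, mul_pos h2 h2]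

/-- `7.5 · 2.73 ρ' ≤ 21.3 ρ'` -/
theorem rel_Yz (hB : 10 ^ 6 ≤ B) (k m : ℕ) (i : Fin 16) : Mt (Yd B k m) (zd B k m i) := by
  obtain ⟨h1, h2, h3, h4, h5, h6⟩ := gad_facts hB m
  obtain ⟨g1, g2⟩ := gad_fin i
  unfold Yd zd
  rw [mt_pt (by positivity)]
  set t : ℝ := ((i : ℕ) : ℝ) - 15 / 2 with ht
  have e : (-(rho B m / 2) - (-(rho B m / 2) + t * (273 / 100) * rho B (m + 1))) ^ 2 +
      (0 - 0 : ℝ) ^ 2 = t ^ 2 * ((273 / 100) ^ 2 * rho B (m + 1) ^ 2) := by ring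
  rw [e]
  have h7 : t ^ 2 ≤ (15 / 2) ^ 2 := by
    exact sq_le_sq' g1 g2
  have h8 : 0 ≤ (273 / 100 : ℝ) ^ 2 * rho B (m + 1) ^ 2 := by positivity
  have h9 := mul_le_mul_of_nonneg_right h7 h8
  nlinarith [mul_pos h2 h2]

/-- `X² + (S + 1.1ρ')² ≤ (S + 1.3ρ')²` where `X ≤ 0.5 ρ + 20.5 ρ' ≤ 0.51 ρ` and
`0.4 S ρ' = 0.4 ρ²` (`S = 200 s`, `ss_mul`) -/
theorem rel_zG (hB : 10 ^ 6 ≤ B) (k m : ℕ) (i : Fin 16) (j : Bool) :
    Mt (zd B k m i) (Gd B k m j) := by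
  obtain ⟨h1, h2, h3, h4, h5, h6⟩ := gad_facts hB m
  obtain ⟨g1, g2⟩ := gad_fin i
  unfold zd Gd
  rw [mt_pt (by positivity)]
  set t : ℝ := ((i : ℕ) : ℝ) - 15 / 2 with ht
  have hs := sgn_sq j
  have e : (-(rho B m / 2) + t * (273 / 100) * rho B (m + 1) - 0) ^ 2 +
      (0 - sgn j * (200 * ss B m + 11 / 10 * rho B (m + 1))) ^ 2 =
      (rho B m / 2 - t * (273 / 100) * rho B (m + 1)) ^ 2 +
      sgn j ^ 2 * (200 * ss B m + 11 / 10 * rho B (m + 1)) ^ 2 := by ring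
  rw [e, hs]
  have h7 : t * (273 / 100) * rho B (m + 1) ≤ 15 / 2 * (273 / 100) * rho B (m + 1) := by
    apply mul_le_mul_of_nonneg_right _ h2.le
    linarith
  have h8 : -(15 / 2) * (273 / 100) * rho B (m + 1) ≤ t * (273 / 100) * rho B (m + 1) := by
    apply mul_le_mul_of_nonneg_right _ h2.le
    linarith
  have h9 : (rho B m / 2 - t * (273 / 100) * rho B (m + 1)) ^ 2 ≤ (51 / 100 * rho B m) ^ 2 := by
    apply sq_le_sq'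
    · linarith
    · linarith
  nlinarith [mul_pos h2 h3, mul_pos h2 h2, mul_pos h1 h1]

/-- `2.73 ρ' > 2.6 ρ'` -/
theorem rel_zz (hB : 10 ^ 6 ≤ B) (k m : ℕ) (i j : Fin 16) (h : i ≠ j) :
    ¬ Mt (zd B k m i) (zd B k m j) := by
  obtain ⟨h1, h2, h3, h4, h5, h6⟩ := gad_facts hB m
  unfold zd
  rw [mt_pt (by positivity)]
  have hne : ((i : ℕ) : ℤ) ≠ ((j : ℕ) : ℤ) := by
    intro hc
    exact h (Fin.ext (by exact_mod_cast hc))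
  have h7 : (1 : ℝ) ≤ (((i : ℕ) : ℝ) - ((j : ℕ) : ℝ)) ^ 2 := by
    have h8 : (1 : ℤ) ≤ (((i : ℕ) : ℤ) - ((j : ℕ) : ℤ)) ^ 2 := by
      have h9 : ((i : ℕ) : ℤ) - ((j : ℕ) : ℤ) ≠ 0 := sub_ne_zero.mpr hne
      have := sq_pos_of_ne_zero h9
      omega
    exact_mod_cast h8
  have e : (-(rho B m / 2) + (((i : ℕ) : ℝ) - 15 / 2) * (273 / 100) * rho B (m + 1) -
      (-(rho B m / 2) + (((j : ℕ) : ℝ) - 15 / 2) * (273 / 100) * rho B (m + 1))) ^ 2 +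
      (0 - 0 : ℝ) ^ 2 =
      (((i : ℕ) : ℝ) - ((j : ℕ) : ℝ)) ^ 2 * ((273 / 100) ^ 2 * rho B (m + 1) ^ 2) := by ring
  rw [e]
  have h8 : 0 ≤ (273 / 100 : ℝ) ^ 2 * rho B (m + 1) ^ 2 := by positivity
  have h9 := mul_le_mul_of_nonneg_right h7 h8
  nlinarith [mul_pos h2 h2]

end BDD
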