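import Pool.Agent.Lib.MP_b55e0a_lc.Config

/-! The disk `q m` meets the disks `E`, `G`, `q (m+1)`, `Y` of level `m`.  Use `qd_frame`, `ue_un`. -/

set_option autoImplicit false

namespace BDD

variable {B : ℝ}

/-- a disk of radius `t ≥ 100 ρ` at height `t + h`, `0 ≤ h ≤ 1.1 ρ'`, `ρ' ≤ ρ/10^6`, above the centre of
`q (m+1)`: `(ue ρ)² + (t + h + 0.8ρ)² ≤ (t + ρ)²` since `ue² + un² = 1` -/
theorem rel_P_aux {ρ ρ' t h a b : ℝ} (hρ : 0 < ρ) (hρ' : 0 < ρ') (h1 : 10 ^ 6 * ρ' ≤ ρ)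
    (ht : 100 * ρ ≤ t) (h0 : 0 ≤ h) (hh : h ≤ 11 / 10 * ρ') (ha : 0 ≤ a) (hb : 0 ≤ b)
    (hb1 : b ≤ 4 / 5) (hab : a ^ 2 + b ^ 2 = 1) (i : Bool) :
    (-(a * ρ) - 0) ^ 2 + (-(b * ρ) - sgn i * (t + h)) ^ 2 ≤ (ρ + t) ^ 2 := by
  have h2 : (b * ρ + (t + h)) ^ 2 + (a * ρ) ^ 2 ≤ (ρ + t) ^ 2 := by
    have e : (b * ρ + (t + h)) ^ 2 + (a * ρ) ^ 2 =
        ρ ^ 2 * (a ^ 2 + b ^ 2) + 2 * b * ρ * (t + h) + (t + h) ^ 2 := by ring
    rw [e, hab]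
    have k1 : b * ρ * (t + h) ≤ 4 / 5 * ρ * (t + h) := by
      have : 0 ≤ ρ * (t + h) := by nlinarith
      nlinarith
    have hh' : h ≤ ρ / 500000 := by linarith
    have k2 : h * ρ ≤ ρ / 500000 * ρ := mul_le_mul_of_nonneg_right hh' hρ.le
    have k3 : h * t ≤ ρ / 500000 * t := mul_le_mul_of_nonneg_right hh' (by linarith)
    have k4 : h * h ≤ ρ / 500000 * (ρ / 500000) := mul_le_mul hh' hh' h0 (by positivity)
    have k5 : 100 * ρ * ρ ≤ t * ρ := mul_le_mul_of_nonneg_right ht hρ.le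
    nlinarith
  refine le_trans ?_ h2
  have k6 : 0 ≤ (b * ρ) * (t + h) := by
    have : 0 ≤ t + h := by linarith
    positivity
  cases i
  · simp only [sgn, Bool.false_eq_true, if_false]
    nlinarith
  · simp only [sgn, if_true]
    nlinarith

theorem rel_PE (hB : 10 ^ 6 ≤ B) (k m : ℕ) (i : Bool) : Mt (qd B k m) (Ed B k m i) := by
  have hB0 : 0 < B := by linarith
  rw [qd_frame, Ed, mt_pt (add_pos (rho_pos hB0 _) (ss_pos hB0 _)).le]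
  obtain ⟨u1, u2, u3, u4, u5⟩ := ue_un m
  have h1 := rho_pos hB0 m
  have h2 := rho_pos hB0 (m + 1)
  have h3 := rho_succ hB m
  have h4 := ss_ge hB m
  exact rel_P_aux h1 h2 h3 (by linarith) (by linarith) (by linarith) (by linarith) (by linarith) u4 u5 i

theorem rel_PG (hB : 10 ^ 6 ≤ B) (k m : ℕ) (i : Bool) : Mt (qd B k m) (Gd B k m i) := by
  have hB0 : 0 < B := by linarith
  have hs := ss_pos hB0 m
  rw [qd_frame, Gd, mt_pt (add_pos (rho_pos hB0 _) (by linarith)).le]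
  obtain ⟨u1, u2, u3, u4, u5⟩ := ue_un m
  have h1 := rho_pos hB0 m
  have h2 := rho_pos hB0 (m + 1)
  have h3 := rho_succ hB m
  have h4 := ss_ge hB m
  exact rel_P_aux h1 h2 h3 (by linarith) (by linarith) (by linarith) (by linarith) (by linarith) u4 u5 i

theorem rel_Pq (hB : 10 ^ 6 ≤ B) (k m : ℕ) : Mt (qd B k m) (qd B k (m + 1)) := by
  have hB0 : 0 < B := by linarith
  have h1 := rho_pos hB0 m
  have h2 := rho_pos hB0 (m + 1)
  rw [qd_frame, qd_succ, mt_pt (add_pos h1 h2).le]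
  obtain ⟨u1, u2, u3, u4, u5⟩ := ue_un m
  have e : (-(ue m * rho B m) - 0) ^ 2 + (-(un m * rho B m) - 0) ^ 2 =
      rho B m ^ 2 * (ue m ^ 2 + un m ^ 2) := by ring
  rw [e, u5]
  nlinarith

/-- `|ρ u - ρ/2 e|² = (1.25 - ue) ρ² ≤ ρ²` -/
theorem rel_PY (hB : 10 ^ 6 ≤ B) (k m : ℕ) : Mt (qd B k m) (Yd B k m) := by
  have hB0 : 0 < B := by linarith
  have h1 := rho_pos hB0 m
  have h2 := rho_pos hB0 (m + 1)
  rw [qd_frame, Yd, mt_pt (by linarith)]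
  obtain ⟨u1, u2, u3, u4, u5⟩ := ue_un m
  have e : (-(ue m * rho B m) - -(rho B m / 2)) ^ 2 + (-(un m * rho B m) - 0) ^ 2 =
      rho B m ^ 2 * ((ue m ^ 2 + un m ^ 2) - ue m + 1 / 4) := by ring
  rw [e, u5]
  have k1 : rho B m ^ 2 * (1 - ue m + 1 / 4) ≤ rho B m ^ 2 * 1 :=
    mul_le_mul_of_nonneg_left (by linarith) (sq_nonneg _)
  nlinarith

end BDD
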