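import Pool.Agent.Lib.MP_b55e0a_lc.GoodDef
import Pool.Agent.Lib.MP_b55e0a_lc.RelGad
import Pool.Agent.Lib.MP_b55e0a_lc.RelP
import Pool.Agent.Lib.MP_b55e0a_lc.RelFar
import Pool.Agent.Lib.MP_b55e0a_lc.RelBase

/-! The explicit disks satisfy the relations `Good`. -/

set_option autoImplicit false

namespace BDD

theorem good_dk {B : ℝ} {R : ℕ} (L : ℕ) (hB : 10 ^ 6 ≤ B)
    (hBR : 3 * (4 * (R : ℝ) + 1) ^ 2 ≤ B) : Good R L (dk B) where
  gad k m _ _ := by
    rw [dk_prev]
    exact
      { EE := rel_EE hB k m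
        GG := rel_GG hB k m
        qE := rel_qE hB k m
        qG := rel_qG hB k m
        YE := rel_YE hB k m
        Yz := rel_Yz hB k m
        zG := rel_zG hB k m
        zz := rel_zz hB k m
        PE := rel_PE hB k m
        PG := rel_PG hB k m
        Pq := rel_Pq hB k m
        PY := rel_PY hB k m }
  far k m _ _ i j := rel_far hB k m i j
  base k m l hk hm _ hl i := rel_base hB hBR hk hl hm i
  TT k l _ _ h := rel_TT h

end BDD
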