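import Pool.Agent.Lib.MP_b55e0a_lc.Config

/-! The relations which force the doubly exponential ratio. -/

set_option autoImplicit false

namespace BDD

/-- all relations used, for `R` copies with `L` levels -/
structure Good (R L : ℕ) (F : Ix → Dk) : Prop where
  gad : ∀ k m, k < R → m < L → Gad (F (k, prev m)) (F (k, some (m, Ty.q)))
    (F (k, some (m, Ty.Y))) (fun i => F (k, some (m, Ty.E i))) (fun i => F (k, some (m, Ty.G i)))
    (fun i => F (k, some (m, Ty.z i)))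
  far : ∀ k m, k < R → m + 3 < L → ∀ i j,
    Mt (F (k, some (m + 3, Ty.E i))) (F (k, some (m, Ty.G j))) ∧
    Mt (F (k, some (m + 3, Ty.G i))) (F (k, some (m, Ty.G j)))
  base : ∀ k m l, k < R → m < 3 → m < L → l < R → ∀ i,
    Mt (F (l, none)) (F (k, some (m, Ty.E i))) ∧ Mt (F (l, none)) (F (k, some (m, Ty.G i)))
  TT : ∀ k l, k < R → l < R → k ≠ l → ¬ Mt (F (k, none)) (F (l, none))

/-- admissible indices -/
def Adm (R L : ℕ) (u : Ix) : Prop := u.1 < R ∧ ∀ p, u.2 = some p → p.1 < L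

/-- the relations are transferred by an isomorphism of the intersection patterns -/
theorem Good.transfer {R L : ℕ} {F F' : Ix → Dk} (h : Good R L F)
    (hF : ∀ u v, Adm R L u → Adm R L v → u ≠ v → (Mt (F u) (F v) ↔ Mt (F' u) (F' v))) :
    Good R L F' := by
  have a0 : ∀ k m, k < R → m < L → Adm R L (k, prev m) := by
    intro k m hk hm
    refine ⟨hk, fun p hp => ?_⟩
    cases m with
    | zero => simp [prev] at hp
    | succ m =>
      simp only [prev, Option.some.injEq] at hp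
      rw [← hp]
      exact Nat.lt_of_succ_lt hm
  have a1 : ∀ k m t, k < R → m < L → Adm R L (k, some (m, t)) := by
    intro k m t hk hm
    refine ⟨hk, fun p hp => ?_⟩
    simp only [Option.some.injEq] at hp
    rw [← hp]
    exact hm
  have an : ∀ k, k < R → Adm R L (k, none) := by
    intro k hk
    exact ⟨hk, fun p hp => by simp at hp⟩
  have ne0 : ∀ (k m : ℕ) (t : Ty), ((k, prev m) : Ix) ≠ (k, some (m, t)) := by
    intro k m t h
    cases m with
    | zero => simp [prev] at h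
    | succ m => simp [prev] at h
  have pos : ∀ u v, Adm R L u → Adm R L v → u ≠ v → Mt (F u) (F v) → Mt (F' u) (F' v) :=
    fun u v hu hv huv => (hF u v hu hv huv).1
  have neg : ∀ u v, Adm R L u → Adm R L v → u ≠ v → ¬ Mt (F u) (F v) → ¬ Mt (F' u) (F' v) :=
    fun u v hu hv huv hn hm => hn ((hF u v hu hv huv).2 hm)
  refine ⟨?_, ?_, ?_, ?_⟩
  · intro k m hk hm
    have g := h.gad k m hk hm
    refine ⟨?_, ?_, ?_, ?_, ?_, ?_, ?_, ?_, ?_, ?_, ?_, ?_⟩
    · exact neg _ _ (a1 _ _ _ hk hm) (a1 _ _ _ hk hm) (by simp) g.EE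
    · exact neg _ _ (a1 _ _ _ hk hm) (a1 _ _ _ hk hm) (by simp) g.GG
    · exact fun i => pos _ _ (a1 _ _ _ hk hm) (a1 _ _ _ hk hm) (by simp) (g.qE i)
    · exact fun i => neg _ _ (a1 _ _ _ hk hm) (a1 _ _ _ hk hm) (by simp) (g.qG i)
    · exact fun i => neg _ _ (a1 _ _ _ hk hm) (a1 _ _ _ hk hm) (by simp) (g.YE i)
    · exact fun i => pos _ _ (a1 _ _ _ hk hm) (a1 _ _ _ hk hm) (by simp) (g.Yz i)
    · exact fun i j => pos _ _ (a1 _ _ _ hk hm) (a1 _ _ _ hk hm) (by simp) (g.zG i j)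
    · exact fun i j hij => neg _ _ (a1 _ _ _ hk hm) (a1 _ _ _ hk hm) (by simpa using hij)
        (g.zz i j hij)
    · exact fun i => pos _ _ (a0 _ _ hk hm) (a1 _ _ _ hk hm) (ne0 _ _ _) (g.PE i)
    · exact fun i => pos _ _ (a0 _ _ hk hm) (a1 _ _ _ hk hm) (ne0 _ _ _) (g.PG i)
    · exact pos _ _ (a0 _ _ hk hm) (a1 _ _ _ hk hm) (ne0 _ _ _) g.Pq
    · exact pos _ _ (a0 _ _ hk hm) (a1 _ _ _ hk hm) (ne0 _ _ _) g.PY
  · intro k m hk hm i j
    have hm' : m < L := by omega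
    exact ⟨pos _ _ (a1 _ _ _ hk hm) (a1 _ _ _ hk hm') (by simp) (h.far k m hk hm i j).1,
      pos _ _ (a1 _ _ _ hk hm) (a1 _ _ _ hk hm') (by simp) (h.far k m hk hm i j).2⟩
  · intro k m l hk hm3 hm hl i
    exact ⟨pos _ _ (an _ hl) (a1 _ _ _ hk hm) (by simp) (h.base k m l hk hm3 hm hl i).1,
      pos _ _ (an _ hl) (a1 _ _ _ hk hm) (by simp) (h.base k m l hk hm3 hm hl i).2⟩
  · intro k l hk hl hkl
    exact neg _ _ (an _ hk) (an _ hl) (by simpa using hkl) (h.TT k l hk hl hkl)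

end BDD
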