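import Pool.Agent.Lib.MP_b55e0a_lc.FarSame
import Pool.Agent.Lib.MP_b55e0a_lc.FarDiff
import Pool.Agent.Lib.MP_b55e0a_lc.GoodDef

/-! The graphs, their size and their maximum degree. -/

set_option autoImplicit false

namespace BDD

/-- vertices: `R` copies, `L` levels -/
abbrev VV (R L : ℕ) : Type := Fin R × Option (Fin L × Ty)

/-- index of a vertex -/
def emb {R L : ℕ} (v : VV R L) : Ix := (v.1, v.2.map fun p => ((p.1 : ℕ), p.2))

theorem emb_injective (R L : ℕ) : Function.Injective (emb (R := R) (L := L)) := by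
  rintro ⟨k, o⟩ ⟨l, o'⟩ h
  unfold emb at h
  simp only [Prod.mk.injEq] at h
  obtain ⟨h1, h2⟩ := h
  have h3 : k = l := Fin.ext h1
  subst h3
  rcases o with _ | ⟨m, t⟩ <;> rcases o' with _ | ⟨n, t'⟩
  · rfl
  · simp at h2
  · simp at h2
  · simp only [Option.map_some, Option.some.injEq, Prod.mk.injEq] at h2
    obtain ⟨h4, h5⟩ := h2
    have h6 : m = n := Fin.ext h4
    rw [h6, h5]

/-- admissible indices are the indices of vertices -/
theorem adm_iff {R L : ℕ} (u : Ix) : Adm R L u ↔ ∃ v : VV R L, emb v = u := by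
  obtain ⟨k, o⟩ := u
  unfold Adm
  constructor
  · rintro ⟨h1, h2⟩
    rcases o with _ | ⟨m, t⟩
    · exact ⟨(⟨k, h1⟩, none), rfl⟩
    · have hm : m < L := by simpa using h2
      exact ⟨(⟨k, h1⟩, some (⟨m, hm⟩, t)), rfl⟩
  · rintro ⟨⟨l, o'⟩, h⟩
    unfold emb at h
    simp only [Prod.mk.injEq] at h
    obtain ⟨h1, h2⟩ := h
    subst h1
    subst h2
    refine ⟨l.2, ?_⟩
    rcases o' with _ | ⟨m, t⟩
    · simp
    · simp

theorem card_VV (R L : ℕ) : Fintype.card (VV R L) = R * (22 * L + 1) := by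
  unfold VV
  rw [Fintype.card_prod, Fintype.card_option, Fintype.card_prod, Fintype.card_fin,
    Fintype.card_fin, card_Ty, mul_comm L 22]

/-- the intersection graph of the explicit disks -/
def gr (B : ℝ) (R L : ℕ) : SimpleGraph (VV R L) where
  Adj u v := u ≠ v ∧ Mt (dk B (emb u)) (dk B (emb v))
  symm := ⟨fun _ _ h => ⟨h.1.symm, mt_comm.1 h.2⟩⟩
  loopless := ⟨fun _ h => h.1 rfl⟩

/-- level of a vertex, `0` for the disks `q 0`, `m + 1` for the disks of level `m` -/
def lev {R L : ℕ} (v : VV R L) : ℕ := v.2.elim 0 fun p => (p.1 : ℕ) + 1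

/-- adjacent vertices have close levels and are in the same copy, or both have level `≤ 7` -/
theorem adj_lev {B : ℝ} (hB : 10 ^ 6 ≤ B) {R L : ℕ} {v w : VV R L} (h : (gr B R L).Adj v w) :
    (w.1 = v.1 ∧ lev v ≤ lev w + 4 ∧ lev w ≤ lev v + 4) ∨ lev w ≤ 7 := by
  obtain ⟨hne, hm⟩ := h
  obtain ⟨k, o⟩ := v
  obtain ⟨l, o'⟩ := w
  by_cases hkl : l = k
  · subst hkl
    left
    refine ⟨rfl, ?_⟩
    rcases o with _ | ⟨m, t⟩ <;> rcases o' with _ | ⟨n, t'⟩
    · exact ⟨Nat.zero_le _, Nat.zero_le _⟩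
    · have hn : ¬ 4 ≤ (n : ℕ) := fun h4 => far_zero hB l n t' h4 hm
      show (0 : ℕ) ≤ (n : ℕ) + 1 + 4 ∧ (n : ℕ) + 1 ≤ 0 + 4
      omega
    · have hn : ¬ 4 ≤ (m : ℕ) := fun h4 => far_zero hB l m t h4 (mt_comm.1 hm)
      show (m : ℕ) + 1 ≤ 0 + 4 ∧ (0 : ℕ) ≤ (m : ℕ) + 1 + 4
      omega
    · have h1 : ¬ (m : ℕ) + 5 ≤ n := fun h4 => far_same hB l m n t t' h4 hm
      have h2 : ¬ (n : ℕ) + 5 ≤ m := fun h4 => far_same hB l n m t' t h4 (mt_comm.1 hm)
      show (m : ℕ) + 1 ≤ (n : ℕ) + 1 + 4 ∧ (n : ℕ) + 1 ≤ (m : ℕ) + 1 + 4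
      omega
  · right
    have hkl' : (k : ℕ) ≠ l := fun h => hkl (Fin.ext h.symm)
    rcases o' with _ | ⟨n, t'⟩
    · exact Nat.zero_le _
    · show (n : ℕ) + 1 ≤ 7
      by_contra hn
      have hn7 : 7 ≤ (n : ℕ) := by omega
      rcases o with _ | ⟨m, t⟩
      · exact far_low_zero hB hkl' (n := (n : ℕ)) (by omega) t' hm
      · by_cases hm3 : (m : ℕ) < 3
        · exact far_low hB hkl' hm3 hn7 t t' hm
        · obtain ⟨m', hm'⟩ : ∃ m', (m : ℕ) = m' + 3 := ⟨m - 3, by omega⟩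
          obtain ⟨n', hn'⟩ : ∃ n', (n : ℕ) = n' + 3 := ⟨n - 3, by omega⟩
          have hm2 : Mt (dk B ((k : ℕ), some ((m : ℕ), t))) (dk B ((l : ℕ), some ((n : ℕ), t'))) := hm
          rw [hm', hn'] at hm2
          exact far_diff hB hkl' m' n' t t' hm2

/-- type of a vertex -/
private def graph_ty {R L : ℕ} (v : VV R L) : Ty := v.2.elim Ty.q fun p => p.2

private theorem graph_inj {R L : ℕ} {v w : VV R L} (h1 : v.1 = w.1) (h2 : lev v = lev w)
    (h3 : graph_ty v = graph_ty w) : v = w := by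
  obtain ⟨k, o⟩ := v
  obtain ⟨l, o'⟩ := w
  have h1' : k = l := h1
  subst h1'
  rcases o with _ | ⟨m, t⟩ <;> rcases o' with _ | ⟨n, t'⟩
  · rfl
  · have h4 : 0 = (n : ℕ) + 1 := h2
    omega
  · have h4 : (m : ℕ) + 1 = 0 := h2
    omega
  · have h4 : (m : ℕ) + 1 = (n : ℕ) + 1 := h2
    have h5 : t = t' := h3
    have h6 : m = n := Fin.ext (by omega)
    rw [h5, h6]

/-- `w ↦ (lev w + 4 - lev v, type)` is injective on the first kind of neighbours (at most
`9 · 22 = 198`), `w ↦ (copy, lev w, type)` on the second kind (at most `R · 8 · 22`) -/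
theorem degree_le {B : ℝ} (hB : 10 ^ 6 ≤ B) (R L : ℕ) (v : VV R L) :
    ((gr B R L).neighborSet v).ncard ≤ 198 + 176 * R := by
  obtain ⟨S, hS⟩ : ∃ S : Set (VV R L), S = {w | w.1 = v.1 ∧ lev v ≤ lev w + 4 ∧
    lev w ≤ lev v + 4} := ⟨_, rfl⟩
  obtain ⟨T, hT⟩ : ∃ T : Set (VV R L), T = {w | lev w ≤ 7} := ⟨_, rfl⟩
  have hsub : (gr B R L).neighborSet v ⊆ S ∪ T := by
    intro w hw
    rcases adj_lev hB hw with h | h
    · left
      rw [hS]
      exact h
    · right
      rw [hT]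
      exact h
  have h1 : S.ncard ≤ 198 := by
    have hc : ((Finset.range 9 ×ˢ (Finset.univ : Finset Ty) : Finset (ℕ × Ty)) :
        Set (ℕ × Ty)).ncard = 198 := by
      rw [Set.ncard_coe_finset, Finset.card_product, Finset.card_range, Finset.card_univ, card_Ty]
    rw [← hc]
    refine Set.ncard_le_ncard_of_injOn (fun w => (lev w + 4 - lev v, graph_ty w)) ?_ ?_
      (Finset.finite_toSet _)
    · intro w hw
      rw [hS] at hw
      obtain ⟨a1, a2, a3⟩ := hw
      rw [Finset.mem_coe, Finset.mem_product, Finset.mem_range]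
      refine ⟨?_, Finset.mem_univ _⟩
      show lev w + 4 - lev v < 9
      omega
    · intro w hw w' hw' hww
      rw [hS] at hw hw'
      obtain ⟨a1, a2, a3⟩ := hw
      obtain ⟨b1, b2, b3⟩ := hw'
      have e1 : lev w + 4 - lev v = lev w' + 4 - lev v := congrArg Prod.fst hww
      have e2 : graph_ty w = graph_ty w' := congrArg Prod.snd hww
      exact graph_inj (a1.trans b1.symm) (by omega) e2
  have h2 : T.ncard ≤ 176 * R := by
    have hc : (((Finset.univ : Finset (Fin R)) ×ˢ (Finset.range 8 ×ˢ (Finset.univ : Finset Ty)) :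
        Finset (Fin R × ℕ × Ty)) : Set (Fin R × ℕ × Ty)).ncard = 176 * R := by
      rw [Set.ncard_coe_finset, Finset.card_product, Finset.card_product, Finset.card_range,
        Finset.card_univ, Finset.card_univ, card_Ty, Fintype.card_fin]
      ring
    rw [← hc]
    refine Set.ncard_le_ncard_of_injOn (fun w => (w.1, lev w, graph_ty w)) ?_ ?_
      (Finset.finite_toSet _)
    · intro w hw
      rw [hT] at hw
      have hw' : lev w ≤ 7 := hw
      rw [Finset.mem_coe, Finset.mem_product, Finset.mem_product, Finset.mem_range]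
      refine ⟨Finset.mem_univ _, ?_, Finset.mem_univ _⟩
      show lev w < 8
      omega
    · intro w _ w' _ hww
      have hww' : (w.1, lev w, graph_ty w) = (w'.1, lev w', graph_ty w') := hww
      rw [Prod.mk.injEq, Prod.mk.injEq] at hww'
      exact graph_inj hww'.1 hww'.2.1 hww'.2.2
  calc ((gr B R L).neighborSet v).ncard ≤ (S ∪ T).ncard :=
        Set.ncard_le_ncard hsub (Set.toFinite _)
    _ ≤ S.ncard + T.ncard := Set.ncard_union_le S T
    _ ≤ 198 + 176 * R := add_le_add h1 h2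

end BDD
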