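import Pool.Agent.Lib.MP_b55e0a_lc.GoodA
import Pool.Agent.Lib.MP_b55e0a_lc.GoodB
import Pool.Agent.Lib.MP_b55e0a_lc.Graph

/-! The main theorem. -/

set_option autoImplicit false

namespace BDD

/-- the graphs, their representations and the lower bound for the ratio of the radii -/
theorem main (R : ℕ) (hR : (10 ^ 10 + 2) ^ 2 ≤ R) (N : ℕ) : ∃ (V : Type) (_ : Fintype V) (G : SimpleGraph V),
    Fintype.card V ≤ 67 * R * (N + 1) ∧
    (∀ v, (G.neighborSet v).ncard ≤ 198 + 176 * R) ∧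
    (∃ (c : V → E2) (r : V → ℝ), (∀ v, 0 < r v) ∧ ∀ u v, u ≠ v →
      (G.Adj u v ↔ (Metric.closedBall (c u) (r u) ∩ Metric.closedBall (c v) (r v)).Nonempty)) ∧
    ∀ (c : V → E2) (r : V → ℝ), (∀ v, 0 < r v) → (∀ u v, u ≠ v →
      (G.Adj u v ↔ (Metric.closedBall (c u) (r u) ∩ Metric.closedBall (c v) (r v)).Nonempty)) →
      ∃ u v, 2 ^ (2 ^ N) * r v ≤ r u := by
  set B : ℝ := 10 ^ 6 + 3 * (4 * (R : ℝ) + 1) ^ 2 with hBdef
  have hB : 10 ^ 6 ≤ B := by
    rw [hBdef]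
    nlinarith [sq_nonneg (4 * (R : ℝ) + 1)]
  have hB0 : 0 < B := by linarith
  have hBR : 3 * (4 * (R : ℝ) + 1) ^ 2 ≤ B := by
    rw [hBdef]
    linarith
  have hpos : ∀ u, 0 < (dk B u).2 := dk_pos hB0
  refine ⟨VV R (2 * N + 3), inferInstance, gr B R (2 * N + 3), ?_, degree_le hB R _, ?_, ?_⟩
  · rw [card_VV]
    have : R * (22 * (2 * N + 3) + 1) + R * (23 * N) = 67 * R * (N + 1) := by ring
    omega
  · refine ⟨fun v => (dk B (emb v)).1, fun v => (dk B (emb v)).2, fun v => hpos _, ?_⟩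
    intro u v huv
    rw [← mt_iff_nonempty (hpos (emb u)) (hpos (emb v))]
    exact ⟨fun h => h.2, fun h => ⟨huv, h⟩⟩
  · intro c r hr hrep
    set F : Ix → Dk := Function.extend emb (fun v : VV R (2 * N + 3) => ((c v, r v) : Dk))
      (fun _ => (0, 1)) with hFdef
    have hFe : ∀ v : VV R (2 * N + 3), F (emb v) = (c v, r v) := fun v =>
      (emb_injective R (2 * N + 3)).extend_apply _ _ v
    have hFpos : ∀ u, 0 < (F u).2 := by
      intro u
      by_cases hu : ∃ v : VV R (2 * N + 3), emb v = u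
      · obtain ⟨v, rfl⟩ := hu
        rw [hFe]
        exact hr v
      · rw [hFdef, Function.extend_apply' _ _ _ hu]
        exact one_pos
    have hgood : Good R (2 * N + 3) F := by
      refine (good_dk (2 * N + 3) hB hBR).transfer ?_
      intro u v hu hv huv
      obtain ⟨u', rfl⟩ := (adm_iff u).1 hu
      obtain ⟨v', rfl⟩ := (adm_iff v).1 hv
      have hne : u' ≠ v' := fun h => huv (by rw [h])
      rw [hFe, hFe]
      have h1 := hrep u' v' hne
      rw [mt_iff_nonempty (A := (c u', r u')) (B := (c v', r v')) (hr u') (hr v'), ← h1]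
      exact ⟨fun h => ⟨hne, h⟩, fun h => h.2⟩
    obtain ⟨k, hk, hrat⟩ := hgood.ratio hFpos hR N le_rfl
    have h1 : ((k, some (2 * N + 2, Ty.q)) : Ix) =
        emb ((⟨k, hk⟩, some (⟨2 * N + 2, by omega⟩, Ty.q)) : VV R (2 * N + 3)) := rfl
    have h2 : ((k, prev (2 * N + 2)) : Ix) =
        emb ((⟨k, hk⟩, some (⟨2 * N + 1, by omega⟩, Ty.q)) : VV R (2 * N + 3)) := rfl
    rw [h1, h2, hFe, hFe] at hrat
    exact ⟨_, _, hrat⟩

end BDD
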