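import Pool.Agent.Lib.MP_b55e0a_lc.Basic

/-! Three pairwise disjoint disks which meet a small disk cannot all be large. -/

set_option autoImplicit false

namespace BDD

private theorem three_pair {p A B : Dk} (hp : 0 < p.2) (hA : 7 * p.2 ≤ A.2) (hB : 7 * p.2 ≤ B.2)
    (hAB : ¬ Mt A B) (pA : Mt p A) (pB : Mt p B)
    (h : -(‖A.1 - p.1‖ * ‖B.1 - p.1‖ / 2) ≤ inner ℝ (A.1 - p.1) (B.1 - p.1)) : False := by
  have h1 : ‖A.1 - p.1‖ ≤ p.2 + A.2 := by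
    rw [← dist_eq_norm, dist_comm]
    exact pA
  have h2 : ‖B.1 - p.1‖ ≤ p.2 + B.2 := by
    rw [← dist_eq_norm, dist_comm]
    exact pB
  have h3 : A.2 + B.2 < ‖(A.1 - p.1) - (B.1 - p.1)‖ := by
    have h4 : (A.1 - p.1) - (B.1 - p.1) = A.1 - B.1 := by abel
    rw [h4, ← dist_eq_norm]
    exact not_le.1 hAB
  have h5 := norm_sub_sq_real (A.1 - p.1) (B.1 - p.1)
  set a := ‖A.1 - p.1‖ with ha
  set b := ‖B.1 - p.1‖ with hb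
  set t := ‖(A.1 - p.1) - (B.1 - p.1)‖ with ht
  set s := inner ℝ (A.1 - p.1) (B.1 - p.1) with hs
  have ha0 : 0 ≤ a := norm_nonneg _
  have hb0 : 0 ≤ b := norm_nonneg _
  have h6 : (A.2 + B.2) ^ 2 < t ^ 2 := by
    apply pow_lt_pow_left₀ h3 _ (by norm_num)
    linarith
  have h7 : a ^ 2 ≤ (p.2 + A.2) ^ 2 := pow_le_pow_left₀ ha0 h1 2
  have h8 : b ^ 2 ≤ (p.2 + B.2) ^ 2 := pow_le_pow_left₀ hb0 h2 2
  have h9 : a * b ≤ (p.2 + A.2) * (p.2 + B.2) := mul_le_mul h1 h2 hb0 (by linarith)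
  have h10 : 0 ≤ (A.2 - 7 * p.2) * (B.2 - 7 * p.2) :=
    mul_nonneg (by linarith) (by linarith)
  have h11 : 0 ≤ p.2 * (A.2 - 7 * p.2) := mul_nonneg hp.le (by linarith)
  have h12 : 0 ≤ p.2 * (B.2 - 7 * p.2) := mul_nonneg hp.le (by linarith)
  have h13 : 0 < p.2 * p.2 := mul_pos hp hp
  nlinarith

/-- With `vᵢ = cᵢ - p`, `wᵢ = vᵢ/|vᵢ|` (or `0`): `|w₁+w₂+w₃|² ≥ 0`, so `⟨wᵢ,wⱼ⟩ ≥ -1/2` for some
`i ≠ j`, i.e. `⟨vᵢ,vⱼ⟩ ≥ -|vᵢ||vⱼ|/2`.  With `x, y ≥ 7α` the radii, `|vᵢ| ≤ α+x`, `|vⱼ| ≤ α+y`: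
`(x+y)² < |vᵢ-vⱼ|² ≤ (α+x)² + (α+y)² + (α+x)(α+y)`, i.e. `xy < 3α(x+y) + 3α²`, a contradiction. -/
theorem three {p A B C : Dk} (hp : 0 < p.2) (hA : 7 * p.2 ≤ A.2) (hB : 7 * p.2 ≤ B.2)
    (hC : 7 * p.2 ≤ C.2) (hAB : ¬ Mt A B) (hAC : ¬ Mt A C) (hBC : ¬ Mt B C)
    (pA : Mt p A) (pB : Mt p B) (pC : Mt p C) : False := by
  by_cases h1 : -(‖A.1 - p.1‖ * ‖B.1 - p.1‖ / 2) ≤ inner ℝ (A.1 - p.1) (B.1 - p.1)
  · exact three_pair hp hA hB hAB pA pB h1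
  by_cases h2 : -(‖A.1 - p.1‖ * ‖C.1 - p.1‖ / 2) ≤ inner ℝ (A.1 - p.1) (C.1 - p.1)
  · exact three_pair hp hA hC hAC pA pC h2
  by_cases h3 : -(‖B.1 - p.1‖ * ‖C.1 - p.1‖ / 2) ≤ inner ℝ (B.1 - p.1) (C.1 - p.1)
  · exact three_pair hp hB hC hBC pB pC h3
  rw [not_le] at h1 h2 h3
  set u := A.1 - p.1 with hu
  set v := B.1 - p.1 with hv
  set w := C.1 - p.1 with hw
  have ha : 0 < ‖u‖ := by
    rw [norm_pos_iff]
    intro h0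
    rw [h0] at h1
    simp at h1
  have hb : 0 < ‖v‖ := by
    rw [norm_pos_iff]
    intro h0
    rw [h0] at h1
    simp at h1
  have hc : 0 < ‖w‖ := by
    rw [norm_pos_iff]
    intro h0
    rw [h0] at h2
    simp at h2
  have h4 : 0 ≤ ‖(‖v‖ * ‖w‖) • u + (‖u‖ * ‖w‖) • v + (‖u‖ * ‖v‖) • w‖ ^ 2 := by positivity
  rw [norm_add_sq_real, norm_add_sq_real] at h4
  simp only [norm_smul, inner_add_left, real_inner_smul_left, real_inner_smul_right,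
    Real.norm_eq_abs, abs_mul, abs_norm] at h4
  have hab : 0 < ‖u‖ * ‖v‖ := mul_pos ha hb
  have habc : 0 < ‖u‖ * ‖v‖ * ‖w‖ := mul_pos hab hc
  have h5 := mul_lt_mul_of_pos_left h1 hc
  have h6 := mul_lt_mul_of_pos_left h2 hb
  have h7 := mul_lt_mul_of_pos_left h3 ha
  have h8 : ‖w‖ * inner ℝ u v + ‖v‖ * inner ℝ u w + ‖u‖ * inner ℝ v w
      < -(3 / 2 * (‖u‖ * ‖v‖ * ‖w‖)) := by
    linarith
  have h9 := mul_lt_mul_of_pos_left h8 habc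
  nlinarith

end BDD
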