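import Pool.Agent.Lib.MP_b55e0a_lc.Gap
import Pool.Agent.Lib.MP_b55e0a_lc.Three
import Pool.Agent.Lib.MP_b55e0a_lc.Area

/-! The squaring inequality. -/

set_option autoImplicit false

namespace BDD

/-- Write `w = r(P)`, `β = r(q)`, `η = r(Y)`, `ζᵢ = r(zᵢ)`.
1. `three` for `P; G true, G false, q` gives `β < 7w`; for `P; E true, E false, Y`: `η < 7w`.
2. `|q - Y| ≤ (β+w)+(w+η) ≤ 16w`; `gap` for `E` with `p := q`, `q := Y`:
   `η ≤ 1.1 β + 1.1 β²/(2Λ) + 5.5·256 w²/Λ ≤ 1.1 β + 1435 w²/Λ`.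
3. for each `i`: `β ≤ 1.1 ζᵢ + 5000 w²/Λ`: clear if `β ≤ ζᵢ`; otherwise `ζᵢ < 7w`,
   `|q - zᵢ| ≤ 16w + η + ζᵢ ≤ 30w` and `gap` for `G` with `p := zᵢ`.
4. `area` for the `zᵢ` and `Y` with `t = min ζᵢ`: `16 t² ≤ (η+2t)²`, so `t ≤ η/2`.
5. `β ≤ 0.55 η + 5000 w²/Λ`, `η ≤ 0.605 η + 6935 w²/Λ`, so `η ≤ 17600 w²/Λ`, `β ≤ 15000 w²/Λ`. -/
theorem squaring {P q Y : Dk} {E G : Bool → Dk} {z : Fin 16 → Dk} (h : Gad P q Y E G z) {Λ : ℝ}
    (hP : 0 < P.2) (hq : 0 < q.2) (hY : 0 < Y.2) (hz : ∀ i, 0 < (z i).2)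
    (hE : ∀ i, Λ ≤ (E i).2) (hG : ∀ i, Λ ≤ (G i).2) (hΛ : 100 * P.2 ≤ Λ) :
    q.2 ≤ 15000 * (P.2 ^ 2 / Λ) := by
  have hΛ0 : 0 < Λ := by linarith
  have hΛne : Λ ≠ 0 := hΛ0.ne'
  set w := P.2 with hw
  set X := w ^ 2 / Λ with hX
  have hX0 : 0 ≤ X := by positivity
  -- step 1
  have hβ : q.2 < 7 * w := by
    by_contra hcon
    push Not at hcon
    exact three (p := P) (A := G true) (B := G false) (C := q) hP (by linarith [hG true])
      (by linarith [hG false]) hcon h.GG (fun h' => h.qG true (mt_comm.1 h'))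
      (fun h' => h.qG false (mt_comm.1 h')) (h.PG true) (h.PG false) h.Pq
  have hη : Y.2 < 7 * w := by
    by_contra hcon
    push Not at hcon
    exact three (p := P) (A := E true) (B := E false) (C := Y) hP (by linarith [hE true])
      (by linarith [hE false]) hcon h.EE (fun h' => h.YE true (mt_comm.1 h'))
      (fun h' => h.YE false (mt_comm.1 h')) (h.PE true) (h.PE false) h.PY
  -- step 2
  have hqY : dist q.1 Y.1 ≤ 16 * w := by
    have h1 : dist P.1 q.1 ≤ P.2 + q.2 := h.Pq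
    have h2 : dist P.1 Y.1 ≤ P.2 + Y.2 := h.PY
    have h3 := dist_triangle_left q.1 Y.1 P.1
    linarith
  have hsq : ∀ b : ℝ, 0 < b → b < 7 * w → b ^ 2 / (2 * Λ) ≤ 49 / 2 * X := by
    intro b hb0 hb
    have : b ^ 2 / (2 * Λ) = (b ^ 2 / Λ) / 2 := by
      field_simp
    rw [this, hX]
    have h1 : b ^ 2 / Λ ≤ (7 * w) ^ 2 / Λ :=
      div_le_div_of_nonneg_right (pow_le_pow_left₀ hb0.le hb.le 2) hΛ0.le
    have h2 : (7 * w) ^ 2 / Λ = 49 * (w ^ 2 / Λ) := by ring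
    linarith
  have hηβ : Y.2 ≤ 11 / 10 * q.2 + 1435 * X := by
    have h1 := gap (G₁ := E true) (G₂ := E false) (p := q) (q := Y) (D := 16 * w) hΛ0 (hE true)
      (hE false) hq.le hY.le h.EE (h.qE true) (h.qE false) (h.YE true) (h.YE false) hqY
    have h2 : (16 * w) ^ 2 / Λ = 256 * X := by rw [hX]; ring
    have h3 := hsq q.2 hq hβ
    rw [h2] at h1
    linarith
  -- step 3
  have hβζ : ∀ i, q.2 ≤ 11 / 10 * (z i).2 + 5000 * X := by
    intro i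
    rcases le_or_gt q.2 (z i).2 with hle | hlt
    · have := hz i
      linarith
    · have hζ : (z i).2 < 7 * w := hlt.trans hβ
      have hd : dist (z i).1 q.1 ≤ 30 * w := by
        have h1 : dist Y.1 (z i).1 ≤ Y.2 + (z i).2 := h.Yz i
        have h2 := dist_triangle (z i).1 Y.1 q.1
        rw [dist_comm (z i).1 Y.1, dist_comm Y.1 q.1] at h2
        linarith
      have h1 := gap (G₁ := G true) (G₂ := G false) (p := z i) (q := q) (D := 30 * w) hΛ0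
        (hG true) (hG false) (hz i).le hq.le h.GG (h.zG i true) (h.zG i false) (h.qG true)
        (h.qG false) hd
      have h2 : (30 * w) ^ 2 / Λ = 900 * X := by rw [hX]; ring
      have h3 := hsq (z i).2 (hz i) hζ
      rw [h2] at h1
      linarith
  -- step 4
  set t := (q.2 - 5000 * X) * (10 / 11) with ht
  rcases le_or_gt t 0 with ht0 | ht0
  · have : q.2 ≤ 5000 * X := by linarith
    linarith
  · have htz : ∀ i, t ≤ (z i).2 := by
      intro i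
      have := hβζ i
      rw [ht]
      linarith
    have harea := area z Y ht0 htz h.zz hY.le (fun i => mt_comm.1 (h.Yz i))
    rw [Fintype.card_fin] at harea
    have h4 : 4 * t ≤ Y.2 + 2 * t := by
      refine le_of_sq_le_sq ?_ (by linarith) 
      have : (4 * t) ^ 2 = ((16 : ℕ) : ℝ) * t ^ 2 := by push_cast; ring
      rw [this]
      exact harea
    have h5 : q.2 - 5000 * X = t * (11 / 10) := by rw [ht]; ring
    linarith

/-- Lower bound for a disk `H` which bridges a pair of large disks not met by `q`.  Suppose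
`r(H) < r(q)/4`.  Then `gap` with `p := H`, `D = 1.35 r(q)` gives
`r(q) ≤ 1.1 (r(q)/4 + r(q)²/(32Λ)) + 5.5 · 1.8225 r(q)²/Λ < 0.8 r(q)`. -/
theorem lower {H G₁ G₂ q : Dk} {Λ : ℝ} (hq : 0 < q.2) (hH : 0 < H.2) (hΛ : 20 * q.2 ≤ Λ)
    (h1 : Λ ≤ G₁.2) (h2 : Λ ≤ G₂.2) (hG : ¬ Mt G₁ G₂) (hH1 : Mt H G₁) (hH2 : Mt H G₂)
    (hq1 : ¬ Mt q G₁) (hq2 : ¬ Mt q G₂) (hD : dist H.1 q.1 ≤ H.2 + 11 / 10 * q.2) :
    q.2 / 4 ≤ H.2 := by
  by_contra hcon
  push Not at hcon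
  have hΛ0 : 0 < Λ := by linarith
  have h3 := gap (D := 27 / 20 * q.2) hΛ0 h1 h2 hH.le hq.le hG hH1 hH2 hq1 hq2 (by linarith)
  have h4 : q.2 ^ 2 / Λ ≤ q.2 / 20 := by
    rw [div_le_iff₀ hΛ0]
    nlinarith
  have h5 : H.2 ^ 2 / (2 * Λ) ≤ (q.2 ^ 2 / Λ) / 32 := by
    have h6 : H.2 ^ 2 ≤ (q.2 / 4) ^ 2 := pow_le_pow_left₀ hH.le hcon.le 2
    have h7 : H.2 ^ 2 / (2 * Λ) ≤ (q.2 / 4) ^ 2 / (2 * Λ) :=
      div_le_div_of_nonneg_right h6 (by linarith)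
    have h8 : (q.2 / 4) ^ 2 / (2 * Λ) = (q.2 ^ 2 / Λ) / 32 := by
      field_simp
      ring
    linarith
  have h9 : (27 / 20 * q.2) ^ 2 / Λ = 729 / 400 * (q.2 ^ 2 / Λ) := by ring
  rw [h9] at h3
  linarith

end BDD
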