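import Pool.Agent.Lib.MP_b55e0a_lc.Config

/-! All disks of level `n + 3` lie in a small disk around the centre of `q (n+4)`. -/

set_option autoImplicit false

namespace BDD

variable {B : ℝ}

private theorem Sub_da (B : ℝ) (k m : ℕ) (a : ℝ) : dist (pt B k m a 0) (pt B k m 0 0) = |a| := by
  rw [dist_pt, sub_zero, sub_zero, zero_pow (by norm_num), add_zero, Real.sqrt_sq_eq_abs]

private theorem Sub_db (B : ℝ) (k m : ℕ) (b : ℝ) : dist (pt B k m 0 b) (pt B k m 0 0) = |b| := by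
  rw [dist_pt, sub_zero, sub_zero, zero_pow (by norm_num), zero_add, Real.sqrt_sq_eq_abs]

private theorem Sub_sgn (i : Bool) (x : ℝ) (hx : 0 ≤ x) : |sgn i * x| = x := by
  cases i
  · simp [sgn, abs_of_nonneg hx]
  · simp [sgn, abs_of_nonneg hx]

/-- the largest ones are the disks `G`: `400 s + 1.1 ρ (n+4)`, `s = 10 ρ (n+1)` -/
theorem sub_dk (hB : 10 ^ 6 ≤ B) (k n : ℕ) (t : Ty) :
    dist (dk B (k, some (n + 3, t))).1 (pt B k (n + 3) 0 0) + (dk B (k, some (n + 3, t))).2 ≤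
      4001 * rho B (n + 1) := by
  have hB0 : 0 < B := lt_of_lt_of_le (by norm_num) hB
  have h1 : 10 ^ 6 * rho B (n + 3 + 1) ≤ rho B (n + 3) := rho_succ hB (n + 3)
  have h2 : rho B (n + 3) ≤ rho B (n + 1) := rho_anti hB (by omega)
  have h3 := rho_pos hB0 (n + 3 + 1)
  have h4 := rho_pos hB0 (n + 1)
  have h5 := rho_pos hB0 (n + 3)
  have hs : ss B (n + 3) = 10 * rho B (n + 1) := ss_step hB0 n
  norm_num at h1
  cases t with
  | q =>
    show dist (qd B k (n + 3 + 1)).1 (pt B k (n + 3) 0 0) + (qd B k (n + 3 + 1)).2 ≤ _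
    rw [qd_succ]
    show dist (pt B k (n + 3) 0 0) (pt B k (n + 3) 0 0) + rho B (n + 3 + 1) ≤ _
    rw [dist_self]
    linarith
  | Y =>
    show dist (pt B k (n + 3) (-(rho B (n + 3) / 2)) 0) (pt B k (n + 3) 0 0) +
      20 * rho B (n + 3 + 1) ≤ _
    rw [Sub_da, abs_neg, abs_of_nonneg (by linarith)]
    linarith
  | E i =>
    show dist (pt B k (n + 3) 0 (sgn i * (ss B (n + 3) + 9 / 10 * rho B (n + 3 + 1))))
      (pt B k (n + 3) 0 0) + ss B (n + 3) ≤ _
    rw [Sub_db, hs, Sub_sgn _ _ (by linarith)]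
    linarith
  | G i =>
    show dist (pt B k (n + 3) 0 (sgn i * (200 * ss B (n + 3) + 11 / 10 * rho B (n + 3 + 1))))
      (pt B k (n + 3) 0 0) + 200 * ss B (n + 3) ≤ _
    rw [Sub_db, hs, Sub_sgn _ _ (by linarith)]
    linarith
  | z i =>
    show dist (pt B k (n + 3)
      (-(rho B (n + 3) / 2) + (((i : ℕ) : ℝ) - 15 / 2) * (273 / 100) * rho B (n + 3 + 1)) 0)
      (pt B k (n + 3) 0 0) + 13 / 10 * rho B (n + 3 + 1) ≤ _
    rw [Sub_da]
    have hi : ((i : ℕ) : ℝ) ≤ 15 := by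
      have : (i : ℕ) ≤ 15 := by omega
      exact_mod_cast this
    have hi0 : (0 : ℝ) ≤ ((i : ℕ) : ℝ) := Nat.cast_nonneg _
    have h6 : |-(rho B (n + 3) / 2) + (((i : ℕ) : ℝ) - 15 / 2) * (273 / 100) * rho B (n + 3 + 1)| ≤
        rho B (n + 3) / 2 + 15 / 2 * (273 / 100) * rho B (n + 3 + 1) := by
      rw [abs_le]
      constructor
      · nlinarith
      · nlinarith
    linarith

end BDD
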